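import Mathlib

/-!
# Frobenius form of the Tate condition for characters of Fermat varieties

Let `p` be a prime with `m ∣ p - 1`, `χ` a character of order `m` of the multiplicative group of
`ZMod p`, `ψ` a nontrivial additive character.  By Weil the geometric Frobenius at the prime of
`ℚ(μ_m)` above `p` defined by `χ` acts on the line `V(a_0, ..., a_{n+1})` of the cohomology
`H^n` of the Fermat variety of degree `m` and dimension `n` as the Jacobi sum, which up to sign is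
`p⁻¹ ∏ g(χ ^ a_i, ψ)`.  Hence `V(a)(n / 2)` consists of Tate classes iff for all such `p` (up to
finitely many) the number `∏ g(χ ^ a_i, ψ) / p ^ ((n + 2) / 2)` is a root of unity: this is `FrobTate`.

Main results:

* `tate_of_frob`: if this holds for ONE prime `p`, one `χ` and one `ψ`, then Stickelberger's
  condition `2 * ∑ (t * a).val = m * card s` holds for all units `t` modulo `m`;
* `frob_of_tate`: Stickelberger's condition implies it for all `p`, `χ`, `ψ`;
* `frobTate_iff`: the resulting equivalence.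

The proof computes the absolute values of Gauss sums in the algebraic closure of `ℚ_[p]`.
-/

set_option autoImplicit false

namespace Pool.Agent.Lib.MP_938ce2_ag_h6.Frob

open Finset Polynomial

section transfer

/-- integral polynomial identities transfer between primitive roots of unity of the same order -/
lemma transfer {K L : Type*} [Field K] [Field L] [CharZero K] [CharZero L] {n : ℕ} (hn : 0 < n)
    {x : K} {y : L} (hx : IsPrimitiveRoot x n) (hy : IsPrimitiveRoot y n) (Q : ℤ[X])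
    (h : aeval x Q = 0) : aeval y Q = 0 := by
  have h1 : minpoly ℤ x ∣ Q :=
    minpoly.isIntegrallyClosed_dvd (hx.isIntegral hn) h
  rw [← cyclotomic_eq_minpoly hx hn, cyclotomic_eq_minpoly hy hn] at h1
  obtain ⟨q, rfl⟩ := h1
  rw [map_mul, minpoly.aeval, zero_mul]

lemma isPrimitiveRoot_mul {K : Type*} [CommRing K] {m n : ℕ} (hmn : m.Coprime n)
    {x y : K} (hx : IsPrimitiveRoot x m) (hy : IsPrimitiveRoot y n) :
    IsPrimitiveRoot (x * y) (m * n) := by
  rw [IsPrimitiveRoot.iff_orderOf]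
  have h1 := hx.eq_orderOf
  have h2 := hy.eq_orderOf
  rw [(Commute.all x y).orderOf_mul_eq_mul_orderOf_of_coprime (by rwa [← h1, ← h2]), ← h1, ← h2]

end transfer

section sums

variable {p : ℕ} [hp : Fact p.Prime]

lemma orderOf_gen {g : (ZMod p)ˣ} (hg : ∀ x : (ZMod p)ˣ, x ∈ Subgroup.zpowers g) :
    orderOf g = p - 1 := by
  rw [orderOf_eq_card_of_forall_mem_zpowers hg, Nat.card_eq_fintype_card, ZMod.card_units]

lemma sum_units_eq {M : Type*} [AddCommMonoid M] {g : (ZMod p)ˣ}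
    (hg : ∀ x : (ZMod p)ˣ, x ∈ Subgroup.zpowers g) (f : (ZMod p)ˣ → M) :
    ∑ x : (ZMod p)ˣ, f x = ∑ i ∈ range (p - 1), f (g ^ i) := by
  classical
  have h := IsCyclic.image_range_orderOf hg
  rw [orderOf_gen hg] at h
  rw [← h, sum_image]
  intro x hx y hy hxy
  refine pow_injOn_Iio_orderOf (x := g) ?_ ?_ hxy
  · rw [orderOf_gen hg]; simpa using hx
  · rw [orderOf_gen hg]; simpa using hy

/-- Gauss sums in terms of a generator and two roots of unity -/
noncomputable def S {R : Type*} [CommRing R] (g : (ZMod p)ˣ) (z w : R) (a : ℕ) : R :=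
  ∑ i ∈ range (p - 1), z ^ (i * a) * w ^ ((g ^ i : (ZMod p)ˣ) : ZMod p).val

lemma map_S {R R' : Type*} [CommRing R] [CommRing R'] (f : R →+* R') (g : (ZMod p)ˣ) (z w : R)
    (a : ℕ) : f (S g z w a) = S g (f z) (f w) a := by
  unfold S
  rw [map_sum]
  refine sum_congr rfl fun i _ => ?_
  rw [map_mul, map_pow, map_pow]

variable {R : Type*} [CommRing R]

lemma addChar_apply (ψ : AddChar (ZMod p) R) (x : ZMod p) : ψ x = ψ 1 ^ x.val := by
  rw [← AddChar.map_nsmul_eq_pow, nsmul_eq_mul, mul_one, ZMod.natCast_zmod_val]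

lemma gaussSum_eq_S {g : (ZMod p)ˣ} (hg : ∀ x : (ZMod p)ˣ, x ∈ Subgroup.zpowers g)
    (χ : MulChar (ZMod p) R) (ψ : AddChar (ZMod p) R) (a : ℕ) :
    gaussSum (χ ^ a) ψ = S g (χ g) (ψ 1) a := by
  classical
  unfold gaussSum S
  have h0 : ∑ x : ZMod p, (χ ^ a) x * ψ x = ∑ x : (ZMod p)ˣ, (χ ^ a) (x : ZMod p) * ψ x := by
    have h1 : ∑ x : (ZMod p)ˣ, (χ ^ a) (x : ZMod p) * ψ x =
        ∑ x ∈ univ.filter (fun x : ZMod p => x ≠ 0), (χ ^ a) x * ψ x := by
      rw [← sum_subtype_eq_sum_filter]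
      simp only [subtype_univ]
      exact Fintype.sum_equiv unitsEquivNeZero _ _ fun x => rfl
    rw [h1]
    symm
    apply sum_subset (filter_subset _ _)
    intro x _ hx
    have : x = 0 := by simpa using hx
    rw [this, MulChar.map_zero, zero_mul]
  rw [h0, sum_units_eq hg]
  refine sum_congr rfl fun i _ => ?_
  rw [addChar_apply ψ, MulChar.pow_apply_coe, Units.val_pow_eq_pow_val, map_pow, ← pow_mul]

lemma isPrimitiveRoot_mulChar {g : (ZMod p)ˣ} (hg : ∀ x : (ZMod p)ˣ, x ∈ Subgroup.zpowers g)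
    (χ : MulChar (ZMod p) R) : IsPrimitiveRoot (χ g) (orderOf χ) := by
  refine ⟨?_, ?_⟩
  · rw [← MulChar.pow_apply_coe, pow_orderOf_eq_one, MulChar.one_apply_coe]
  · intro l hl
    apply orderOf_dvd_of_pow_eq_one
    ext x
    obtain ⟨i, rfl⟩ := (mem_powers_iff_mem_zpowers (x := g)).mpr (hg x)
    rw [MulChar.one_apply_coe]
    simp only
    rw [Units.val_pow_eq_pow_val, map_pow, MulChar.pow_apply_coe, hl, one_pow]

lemma isPrimitiveRoot_addChar [IsDomain R] (ψ : AddChar (ZMod p) R) (hψ : ψ ≠ 1) :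
    IsPrimitiveRoot (ψ 1) p := by
  have h1 : ψ 1 ≠ 1 := by
    intro h
    apply hψ
    ext x
    rw [addChar_apply, h, one_pow, AddChar.one_apply]
  have h2 : ψ 1 ^ p = 1 := by
    rw [← AddChar.map_nsmul_eq_pow, nsmul_eq_mul, mul_one, ZMod.natCast_self,
      AddChar.map_zero_eq_one]
  have h3 : orderOf (ψ 1) = p := orderOf_eq_prime h2 h1
  exact IsPrimitiveRoot.iff_orderOf.mpr h3

lemma dvd_of_orderOf {g : (ZMod p)ˣ} (hg : ∀ x : (ZMod p)ˣ, x ∈ Subgroup.zpowers g)
    (χ : MulChar (ZMod p) R) : orderOf χ ∣ p - 1 := by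
  apply (isPrimitiveRoot_mulChar hg χ).dvd_of_pow_eq_one
  rw [← map_pow, ZMod.pow_card_sub_one_eq_one g.ne_zero, map_one]

end sums

section padic

variable {p : ℕ} [hp : Fact p.Prime]

lemma sum_units_desc (k j : ℕ) (hk0 : 0 < k) (hk : k < p - 1) (hj : j ≤ k) :
    ∑ x : (ZMod p)ˣ, ((x : ZMod p) ^ (p - 1 - k)) * (descPochhammer (ZMod p) j).eval (x : ZMod p)
      = if j = k then -1 else 0 := by
  classical
  have h1 : ∀ x : (ZMod p)ˣ, ((x : ZMod p) ^ (p - 1 - k)) *
      (descPochhammer (ZMod p) j).eval (x : ZMod p) =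
      ∑ l ∈ range (j + 1), (descPochhammer (ZMod p) j).coeff l * (x : ZMod p) ^ (p - 1 - k + l) := by
    intro x
    rw [eval_eq_sum_range, descPochhammer_natDegree, mul_sum]
    refine sum_congr rfl fun l _ => ?_
    ring
  simp_rw [h1]
  rw [sum_comm]
  simp_rw [← mul_sum]
  have h2 : ∀ l ∈ range (j + 1), (∑ x : (ZMod p)ˣ, (x : ZMod p) ^ (p - 1 - k + l)) =
      if l = k then -1 else 0 := by
    intro l hl
    have hl' : l ≤ j := by
      have := mem_range.mp hl
      omega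
    have h3 := FiniteField.sum_pow_units (ZMod p) (p - 1 - k + l)
    rw [ZMod.card] at h3
    rw [h3]
    congr 1
    apply propext
    constructor
    · intro hd
      by_contra hne
      have h4 : 0 < p - 1 - k + l := by omega
      have h5 : p - 1 - k + l < p - 1 := by omega
      exact absurd (Nat.le_of_dvd h4 hd) (by omega)
    · intro h
      subst h
      have : p - 1 - l + l = p - 1 := by omega
      rw [this]
  rw [sum_congr rfl fun l hl => by rw [h2 l hl]]
  simp only [mul_ite, mul_neg, mul_one, mul_zero]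
  rw [sum_ite_eq']
  by_cases hjk : j = k
  · subst hjk
    rw [if_pos (by simp), if_pos rfl]
    have hm := monic_descPochhammer (ZMod p) j
    have h6 : (descPochhammer (ZMod p) j).coeff j = 1 := by
      have := hm.coeff_natDegree
      rwa [descPochhammer_natDegree] at this
    rw [h6]
  · rw [if_neg (by simp; omega), if_neg hjk]

lemma norm_lt_one_iff_toZMod (x : ℤ_[p]) : ‖x‖ < 1 ↔ PadicInt.toZMod x = 0 := by
  rw [← RingHom.mem_ker, PadicInt.ker_toZMod, IsLocalRing.mem_maximalIdeal, mem_nonunits_iff,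
    PadicInt.not_isUnit_iff]

lemma norm_eq_one_iff_toZMod (x : ℤ_[p]) : ‖x‖ = 1 ↔ PadicInt.toZMod x ≠ 0 := by
  rw [ne_eq, ← norm_lt_one_iff_toZMod]
  constructor
  · intro h
    rw [h]; exact lt_irrefl _
  · intro h
    exact le_antisymm (PadicInt.norm_le_one x) (not_lt.mp h)

/-- Teichmueller representative of a unit. -/
lemma exists_teich (g : (ZMod p)ˣ) :
    ∃ τ : ℤ_[p], τ ^ (p - 1) = 1 ∧ PadicInt.toZMod τ = (g : ZMod p) := by
  classical
  have hp1 : 1 < p := hp.out.one_lt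
  obtain ⟨a, ha⟩ : ∃ a : ℤ_[p], PadicInt.toZMod a = (g : ZMod p) := by
    refine ⟨((g : ZMod p).val : ℤ_[p]), ?_⟩
    rw [map_natCast, ZMod.natCast_zmod_val]
  have hau : ‖a‖ = 1 := by
    rw [norm_eq_one_iff_toZMod, ha]
    exact g.ne_zero
  let F : ℤ_[p][X] := X ^ (p - 1) - 1
  have hF : F.aeval a = a ^ (p - 1) - 1 := by simp [F]
  have hF' : F.derivative.aeval a = ((p - 1 : ℕ) : ℤ_[p]) * a ^ (p - 1 - 1) := by
    simp [F, derivative_X_pow]
  have hn1 : ‖F.aeval a‖ < 1 := by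
    rw [norm_lt_one_iff_toZMod, hF, map_sub, map_pow, ha, map_one]
    rw [ZMod.pow_card_sub_one_eq_one g.ne_zero, sub_self]
  have hn2 : ‖F.derivative.aeval a‖ = 1 := by
    rw [norm_eq_one_iff_toZMod, hF', map_mul, map_pow, ha, map_natCast]
    refine mul_ne_zero ?_ (pow_ne_zero _ g.ne_zero)
    rw [Nat.cast_sub hp1.le, ZMod.natCast_self, Nat.cast_one, zero_sub]
    exact neg_ne_zero.mpr one_ne_zero
  obtain ⟨z, hz0, hz1, -, -⟩ := hensels_lemma (F := F) (a := a) (by rw [hn2]; simpa using hn1)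
  refine ⟨z, ?_, ?_⟩
  · have : F.aeval z = z ^ (p - 1) - 1 := by simp [F]
    rw [this] at hz0
    exact sub_eq_zero.mp hz0
  · rw [hn2, norm_lt_one_iff_toZMod, map_sub, ha] at hz1
    exact sub_eq_zero.mp hz1

/-- the embedding of `ℤ_[p]` into the algebraic closure of `ℚ_[p]` -/
noncomputable def iota (p : ℕ) [Fact p.Prime] : ℤ_[p] →+* PadicAlgCl p :=
  (algebraMap ℚ_[p] (PadicAlgCl p)).comp PadicInt.Coe.ringHom

lemma norm_iota (x : ℤ_[p]) : ‖iota p x‖ = ‖x‖ := by
  unfold iota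
  rw [RingHom.comp_apply, PadicAlgCl.norm_extends]
  rfl

lemma norm_natCast_K (n : ℕ) : ‖(n : PadicAlgCl p)‖ ≤ 1 := by
  rw [← map_natCast (iota p) n, norm_iota]
  exact PadicInt.norm_le_one _

lemma norm_intCast_K (n : ℤ) : ‖(n : PadicAlgCl p)‖ ≤ 1 := by
  rw [← map_intCast (iota p) n, norm_iota]
  exact PadicInt.norm_le_one _

lemma norm_p_K : ‖(p : PadicAlgCl p)‖ = (p : ℝ)⁻¹ := by
  rw [← map_natCast (iota p) p, norm_iota, PadicInt.norm_p]

/-- elements of finite multiplicative order have norm one -/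
lemma norm_eq_one_of_pow {x : PadicAlgCl p} {n : ℕ} (hn : n ≠ 0) (hx : x ^ n = 1) : ‖x‖ = 1 := by
  have h : ‖x‖ ^ n = 1 := by rw [← norm_pow, hx, norm_one]
  exact (pow_eq_one_iff_of_nonneg (norm_nonneg x) hn).mp h

lemma norm_sum_le_K {ι : Type*} (s : Finset ι) (f : ι → PadicAlgCl p) {C : ℝ} (hC : 0 ≤ C)
    (h : ∀ i ∈ s, ‖f i‖ ≤ C) : ‖∑ i ∈ s, f i‖ ≤ C := by
  classical
  induction s using Finset.induction_on with
  | empty => simpa using hC
  | insert a s ha ih =>
    rw [sum_insert ha]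
    refine (IsUltrametricDist.norm_add_le_max _ _).trans (max_le ?_ ?_)
    · exact h a (mem_insert_self _ _)
    · exact ih fun i hi => h i (mem_insert_of_mem hi)

lemma norm_one_sub_pow_le {x : PadicAlgCl p} (hx : ‖x‖ = 1) (n : ℕ) : ‖1 - x ^ n‖ ≤ ‖1 - x‖ := by
  rw [← mul_neg_geom_sum, norm_mul]
  refine mul_le_of_le_one_right (norm_nonneg _) ?_
  refine norm_sum_le_K _ _ zero_le_one fun i _ => ?_
  rw [norm_pow, hx, one_pow]

lemma norm_one_sub_prim {w w' : PadicAlgCl p} (hw : IsPrimitiveRoot w p)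
    (hw' : IsPrimitiveRoot w' p) : ‖1 - w'‖ = ‖1 - w‖ := by
  have hp0 : p ≠ 0 := hp.out.ne_zero
  have hn : ‖w‖ = 1 := norm_eq_one_of_pow hp0 hw.pow_eq_one
  have hn' : ‖w'‖ = 1 := norm_eq_one_of_pow hp0 hw'.pow_eq_one
  obtain ⟨i, -, hi⟩ := hw.eq_pow_of_pow_eq_one hw'.pow_eq_one
  obtain ⟨j, -, hj⟩ := hw'.eq_pow_of_pow_eq_one hw.pow_eq_one
  apply le_antisymm
  · rw [← hi]; exact norm_one_sub_pow_le hn i
  · rw [← hj]; exact norm_one_sub_pow_le hn' j

/-- the norm of `1 - w` for a primitive `p`-th root of unity `w` -/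
lemma norm_pi {w : PadicAlgCl p} (hw : IsPrimitiveRoot w p) : ‖1 - w‖ ^ (p - 1) = (p : ℝ)⁻¹ := by
  have hp0 : 0 < p := hp.out.pos
  have h1 := eval_one_cyclotomic_prime (R := PadicAlgCl p) (p := p)
  rw [cyclotomic_eq_prod_X_sub_primitiveRoots hw, eval_prod] at h1
  simp only [eval_sub, eval_X, eval_C] at h1
  rw [← norm_p_K, ← h1, norm_prod]
  rw [prod_congr rfl (g := fun _ => ‖1 - w‖), prod_const, hw.card_primitiveRoots,
    Nat.totient_prime hp.out]
  intro x hx
  exact norm_one_sub_prim hw ((mem_primitiveRoots hp0).mp hx)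

lemma norm_pi_lt_one {w : PadicAlgCl p} (hw : IsPrimitiveRoot w p) : ‖w - 1‖ < 1 := by
  have h := norm_pi hw
  rw [norm_sub_rev]
  by_contra hc
  have h1 : 1 ≤ ‖1 - w‖ ^ (p - 1) := one_le_pow₀ (not_lt.mp hc)
  rw [h] at h1
  have h2 : (1 : ℝ) < p := by exact_mod_cast hp.out.one_lt
  have h3 : (p : ℝ)⁻¹ < 1 := inv_lt_one_of_one_lt₀ h2
  linarith

lemma norm_pi_pos {w : PadicAlgCl p} (hw : IsPrimitiveRoot w p) : 0 < ‖w - 1‖ := by
  rw [norm_pos_iff, sub_ne_zero]
  exact hw.ne_one hp.out.one_lt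

/-- reduction of the coefficients -/
lemma toZMod_coeff {g : (ZMod p)ˣ} (hg : ∀ x : (ZMod p)ˣ, x ∈ Subgroup.zpowers g) {τ : ℤ_[p]}
    (hτ : PadicInt.toZMod τ = (g : ZMod p)) (k j : ℕ) (hk0 : 0 < k) (hk : k < p - 1)
    (hj : j ≤ k) :
    PadicInt.toZMod (∑ i ∈ range (p - 1), τ ^ (i * (p - 1 - k)) *
        ((((g ^ i : (ZMod p)ˣ) : ZMod p).val.choose j : ℕ) : ℤ_[p])) * (j.factorial : ZMod p)
      = if j = k then -1 else 0 := by
  classical
  rw [← sum_units_desc k j hk0 hk hj, map_sum, sum_mul, sum_units_eq hg]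
  refine sum_congr rfl fun i _ => ?_
  rw [map_mul, map_pow, hτ, map_natCast, mul_assoc, ← Nat.cast_mul, mul_comm (Nat.choose _ _),
    ← Nat.descFactorial_eq_factorial_mul_choose]
  congr 1
  · rw [Units.val_pow_eq_pow_val, ← pow_mul]
  · rw [← descPochhammer_eval_eq_descFactorial, ZMod.natCast_zmod_val]

/-- the valuation of a Gauss sum in the algebraic closure of `ℚ_[p]` -/
lemma norm_gauss {g : (ZMod p)ˣ} (hg : ∀ x : (ZMod p)ˣ, x ∈ Subgroup.zpowers g) {τ : ℤ_[p]}
    (hτ : PadicInt.toZMod τ = (g : ZMod p)) {w : PadicAlgCl p} (hw : IsPrimitiveRoot w p)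
    (k : ℕ) (hk0 : 0 < k) (hk : k < p - 1) :
    ‖∑ i ∈ range (p - 1), iota p τ ^ (i * (p - 1 - k)) *
        w ^ ((g ^ i : (ZMod p)ˣ) : ZMod p).val‖ = ‖w - 1‖ ^ k := by
  classical
  set v : ℕ → ℕ := fun i => ((g ^ i : (ZMod p)ˣ) : ZMod p).val with hv
  have hvp : ∀ i, v i < p := fun i => ZMod.val_lt _
  set π : PadicAlgCl p := w - 1 with hπ
  have hπ1 : ‖π‖ < 1 := norm_pi_lt_one hw
  have hπ0 : 0 < ‖π‖ := norm_pi_pos hw
  have hπp : ‖π‖ ^ (p - 1) = (p : ℝ)⁻¹ := by
    rw [hπ, norm_sub_rev]; exact norm_pi hw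
  set A : ℕ → ℤ_[p] := fun j => ∑ i ∈ range (p - 1), τ ^ (i * (p - 1 - k)) *
    (((v i).choose j : ℕ) : ℤ_[p]) with hA
  have hexp : ∀ i, w ^ v i = ∑ j ∈ range p, (((v i).choose j : ℕ) : PadicAlgCl p) * π ^ j := by
    intro i
    have h1 : w = π + 1 := by rw [hπ]; ring
    rw [h1, add_pow]
    simp only [one_pow, mul_one]
    have h2 : range (v i + 1) ⊆ range p := range_subset_range.mpr (hvp i)
    rw [← sum_subset h2]
    · refine sum_congr rfl fun j _ => mul_comm _ _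
    · intro j _ hj
      have : v i < j := by
        have := mt mem_range.mpr hj
        omega
      rw [Nat.choose_eq_zero_of_lt this, Nat.cast_zero, zero_mul]
  have hS : ∑ i ∈ range (p - 1), iota p τ ^ (i * (p - 1 - k)) * w ^ v i =
      ∑ j ∈ range p, iota p (A j) * π ^ j := by
    simp_rw [hexp, mul_sum]
    rw [sum_comm]
    refine sum_congr rfl fun j _ => ?_
    rw [hA]
    simp only [map_sum, map_mul, map_pow, map_natCast, sum_mul]
    refine sum_congr rfl fun i _ => by ring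
  rw [hS]
  have hfac : ∀ j, j ≤ k → ((j.factorial : ℕ) : ZMod p) ≠ 0 := by
    intro j hj h
    rw [ZMod.natCast_eq_zero_iff, hp.out.dvd_factorial] at h
    omega
  have hlow : ∀ j, j < k → ‖A j‖ ≤ ‖π‖ ^ (p - 1) := by
    intro j hj
    have h1 := toZMod_coeff hg hτ k j hk0 hk hj.le
    rw [if_neg hj.ne] at h1
    have h2 : PadicInt.toZMod (A j) = 0 := (mul_eq_zero.mp h1).resolve_right (hfac j hj.le)
    rw [← norm_lt_one_iff_toZMod, PadicInt.norm_lt_one_iff_dvd] at h2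
    obtain ⟨b, hb⟩ := h2
    rw [hb, norm_mul, PadicInt.norm_p, hπp]
    refine mul_le_of_le_one_right ?_ (PadicInt.norm_le_one b)
    positivity
  have hmid : ‖A k‖ = 1 := by
    have h1 := toZMod_coeff hg hτ k k hk0 hk le_rfl
    rw [if_pos rfl] at h1
    rw [norm_eq_one_iff_toZMod]
    intro h2
    change PadicInt.toZMod (A k) * _ = _ at h1
    rw [h2, zero_mul] at h1
    exact one_ne_zero (neg_eq_zero.mp h1.symm)
  have hkp : k ∈ range p := mem_range.mpr (by omega)
  rw [← add_sum_erase _ _ hkp]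
  have hmain : ‖iota p (A k) * π ^ k‖ = ‖π‖ ^ k := by
    rw [norm_mul, norm_iota, hmid, one_mul, norm_pow]
  have hrest : ‖∑ j ∈ (range p).erase k, iota p (A j) * π ^ j‖ ≤ ‖π‖ ^ (k + 1) := by
    refine norm_sum_le_K _ _ (by positivity) fun j hj => ?_
    rw [norm_mul, norm_iota, norm_pow]
    rcases lt_or_gt_of_ne (ne_of_mem_erase hj) with h | h
    · calc ‖A j‖ * ‖π‖ ^ j ≤ ‖A j‖ * 1 :=
            mul_le_mul_of_nonneg_left (pow_le_one₀ hπ0.le hπ1.le) (norm_nonneg _)
        _ ≤ ‖π‖ ^ (p - 1) := by rw [mul_one]; exact hlow j h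
        _ ≤ ‖π‖ ^ (k + 1) := pow_le_pow_of_le_one hπ0.le hπ1.le (by omega)
    · calc ‖A j‖ * ‖π‖ ^ j ≤ 1 * ‖π‖ ^ j :=
            mul_le_mul_of_nonneg_right (PadicInt.norm_le_one _) (by positivity)
        _ ≤ ‖π‖ ^ (k + 1) := by
            rw [one_mul]; exact pow_le_pow_of_le_one hπ0.le hπ1.le (by omega)
  have hlt : ‖∑ j ∈ (range p).erase k, iota p (A j) * π ^ j‖ < ‖iota p (A k) * π ^ k‖ := by
    rw [hmain]
    refine hrest.trans_lt ?_
    rw [pow_succ]
    exact mul_lt_of_lt_one_right (by positivity) hπ1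
  rw [IsUltrametricDist.norm_add_eq_max_of_norm_ne_norm hlt.ne', max_eq_left hlt.le, hmain]

lemma norm_gauss_S {g : (ZMod p)ˣ} (hg : ∀ x : (ZMod p)ˣ, x ∈ Subgroup.zpowers g) {τ : ℤ_[p]}
    (hτ : PadicInt.toZMod τ = (g : ZMod p)) {w : PadicAlgCl p} (hw : IsPrimitiveRoot w p)
    (k : ℕ) (hk0 : 0 < k) (hk : k < p - 1) :
    ‖S g (iota p τ) w (p - 1 - k)‖ = ‖1 - w‖ ^ k := by
  rw [norm_sub_rev]
  exact norm_gauss hg hτ hw k hk0 hk

/-- The Teichmueller representative of a generator is a primitive root of unity. -/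
lemma isPrimitiveRoot_teich {g : (ZMod p)ˣ} (hg : ∀ x : (ZMod p)ˣ, x ∈ Subgroup.zpowers g)
    {τ : ℤ_[p]} (hτ1 : τ ^ (p - 1) = 1) (hτ : PadicInt.toZMod τ = (g : ZMod p)) :
    IsPrimitiveRoot (iota p τ) (p - 1) := by
  refine ⟨by rw [← map_pow, hτ1, map_one], ?_⟩
  intro l hl
  rw [← map_pow, ← map_one (iota p)] at hl
  have h1 : τ ^ l = 1 := by
    have h2 : ‖τ ^ l - 1‖ = 0 := by
      rw [← norm_iota, map_sub, hl, sub_self, norm_zero]
    exact sub_eq_zero.mp (norm_eq_zero.mp h2)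
  rw [← orderOf_gen hg]
  apply orderOf_dvd_of_pow_eq_one
  ext
  rw [Units.val_pow_eq_pow_val, ← hτ, ← map_pow, h1, map_one, Units.val_one]

lemma S_congr {R : Type*} [CommRing R] (g : (ZMod p)ˣ) {z z' w : R} {a a' : ℕ}
    (h : z ^ a = z' ^ a') : S g z w a = S g z' w a' := by
  unfold S
  refine sum_congr rfl fun i _ => ?_
  rw [mul_comm i a, mul_comm i a', pow_mul, pow_mul, h]

/-- The valuation of one Gauss sum for `z` a power of the Teichmueller representative. -/
lemma norm_S_one {g : (ZMod p)ˣ} (hg : ∀ x : (ZMod p)ˣ, x ∈ Subgroup.zpowers g) {τ : ℤ_[p]}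
    (hτ1 : τ ^ (p - 1) = 1) (hτ : PadicInt.toZMod τ = (g : ZMod p)) {w : PadicAlgCl p}
    (hw : IsPrimitiveRoot w p) {m d : ℕ} [NeZero m] (hmd : p - 1 = d * m) (t : (ZMod m)ˣ)
    {a : ZMod m} (ha : a ≠ 0) :
    ‖S g (iota p τ ^ (d * (-(t : ZMod m)).val)) w a.val‖ = ‖1 - w‖ ^ (d * ((t : ZMod m) * a).val) := by
  have hd : 0 < d := by
    have := hp.out.one_lt
    rcases Nat.eq_zero_or_pos d with h | h
    · subst h; omega
    · exact h
  have hta : (t : ZMod m) * a ≠ 0 := by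
    intro h
    exact ha ((Units.mul_right_eq_zero t).mp h)
  have hv0 : 0 < ((t : ZMod m) * a).val := Nat.pos_of_ne_zero ((ZMod.val_ne_zero _).mpr hta)
  have hv1 : ((t : ZMod m) * a).val < m := ZMod.val_lt _
  set k := d * ((t : ZMod m) * a).val with hk
  have hk0 : 0 < k := Nat.mul_pos hd hv0
  have hk1 : k < p - 1 := by
    rw [hmd]
    exact Nat.mul_lt_mul_of_pos_left hv1 hd
  rw [← norm_gauss_S hg hτ hw k hk0 hk1]
  congr 1
  apply S_congr
  rw [← pow_mul]
  have hone : iota p τ ^ (p - 1) = 1 := by rw [← map_pow, hτ1, map_one]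
  have hmod : d * (-(t : ZMod m)).val * a.val ≡ p - 1 - k [MOD p - 1] := by
    have h1 : (-(t : ZMod m)).val * a.val + ((t : ZMod m) * a).val ≡ 0 [MOD m] := by
      rw [← ZMod.natCast_eq_natCast_iff]
      push_cast
      rw [ZMod.natCast_zmod_val, ZMod.natCast_zmod_val, ZMod.natCast_zmod_val]
      ring
    have h2 : d * ((-(t : ZMod m)).val * a.val + ((t : ZMod m) * a).val) ≡ 0 [MOD d * m] := by
      have := Nat.ModEq.mul_left' d h1
      simpa using this
    rw [← hmd] at h2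
    have h3 : d * (-(t : ZMod m)).val * a.val + k ≡ (p - 1 - k) + k [MOD p - 1] := by
      rw [Nat.sub_add_cancel hk1.le]
      have h4 : p - 1 ≡ 0 [MOD p - 1] := by simp [Nat.ModEq]
      refine Nat.ModEq.trans ?_ h4.symm
      convert h2 using 1
      rw [hk]; ring
    exact Nat.ModEq.add_right_cancel' k h3
  exact pow_eq_pow_of_modEq hmod hone

/-- products of Gauss sums over a multiset -/
noncomputable def D {R : Type*} [CommRing R] {m : ℕ} (g : (ZMod p)ˣ) (z w : R)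
    (s : Multiset (ZMod m)) : R :=
  (s.map fun a => S g z w a.val).prod

lemma map_D {R R' : Type*} [CommRing R] [CommRing R'] (f : R →+* R') {m : ℕ} (g : (ZMod p)ˣ)
    (z w : R) (s : Multiset (ZMod m)) : f (D g z w s) = D g (f z) (f w) s := by
  unfold D
  rw [map_multiset_prod, Multiset.map_map]
  congr 1
  refine Multiset.map_congr rfl fun a _ => ?_
  exact map_S f g z w a.val

lemma norm_D {g : (ZMod p)ˣ} (hg : ∀ x : (ZMod p)ˣ, x ∈ Subgroup.zpowers g) {τ : ℤ_[p]}
    (hτ1 : τ ^ (p - 1) = 1) (hτ : PadicInt.toZMod τ = (g : ZMod p)) {w : PadicAlgCl p}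
    (hw : IsPrimitiveRoot w p) {m d : ℕ} [NeZero m] (hmd : p - 1 = d * m) (t : (ZMod m)ˣ)
    (s : Multiset (ZMod m)) (hs : (0 : ZMod m) ∉ s) :
    ‖D g (iota p τ ^ (d * (-(t : ZMod m)).val)) w s‖ =
      ‖1 - w‖ ^ (d * (s.map fun a => ((t : ZMod m) * a).val).sum) := by
  unfold D
  induction s using Multiset.induction_on with
  | empty => simp
  | cons a s ih =>
    rw [Multiset.map_cons, Multiset.prod_cons, Multiset.map_cons, Multiset.sum_cons, norm_mul,
      ih (fun h => hs (Multiset.mem_cons_of_mem h)), mul_add, pow_add]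
    rw [norm_S_one hg hτ1 hτ hw hmd t (fun h => hs (h ▸ Multiset.mem_cons_self a s))]

end padic

section main

variable {p : ℕ} [hp : Fact p.Prime]

/-- the two exponents for splitting a root of unity of order `m * p` -/
lemma exists_exponents {m n : ℕ} (hmn : m.Coprime n) :
    ∃ e f : ℕ, ∀ {K : Type*} [CommRing K] (x y : K), x ^ m = 1 → y ^ n = 1 →
      (x * y) ^ e = x ∧ (x * y) ^ f = y := by
  obtain ⟨e, he1, he2⟩ := Nat.chineseRemainder hmn 1 0
  obtain ⟨f, hf1, hf2⟩ := Nat.chineseRemainder hmn 0 1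
  refine ⟨e, f, ?_⟩
  intro K _ x y hx hy
  rw [mul_pow, mul_pow]
  constructor
  · rw [pow_eq_pow_of_modEq he1 hx, pow_eq_pow_of_modEq he2 hy, pow_one, pow_zero, mul_one]
  · rw [pow_eq_pow_of_modEq hf1 hx, pow_eq_pow_of_modEq hf2 hy, pow_one, pow_zero, one_mul]


lemma coprime_of_dvd_sub_one {m : ℕ} (h : m ∣ p - 1) : m.Coprime p := by
  have hp1 := hp.out.one_lt
  refine ((Nat.Prime.coprime_iff_not_dvd hp.out).mpr fun hd => ?_).symm
  have h1 := Nat.le_of_dvd (by omega) h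
  have h2 : 0 < m := Nat.pos_of_dvd_of_pos h (by omega)
  have h3 := Nat.le_of_dvd h2 hd
  omega

/-- the polynomial identity expressing that a product of Gauss sums is a power of `p` -/
lemma aeval_D {K : Type*} [Field K] {m : ℕ} (g : (ZMod p)ˣ) (e f : ℕ) (x : K)
    (s : Multiset (ZMod m)) :
    aeval x (D g (X ^ e : ℤ[X]) (X ^ f) s) = D g (x ^ e) (x ^ f) s := by
  have h := map_D ((aeval x : ℤ[X] →ₐ[ℤ] K) : ℤ[X] →+* K) g (X ^ e : ℤ[X]) (X ^ f) s
  simpa using h

lemma transfer_D {K L : Type*} [Field K] [Field L] [CharZero K] [CharZero L] {m : ℕ}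
    (hm : 0 < m) (hmp : m.Coprime p) (g : (ZMod p)ˣ) {z w : K} {z' w' : L}
    (hz : IsPrimitiveRoot z m) (hw : IsPrimitiveRoot w p) (hz' : IsPrimitiveRoot z' m)
    (hw' : IsPrimitiveRoot w' p) (s : Multiset (ZMod m)) (A B : ℕ)
    (h : (D g z w s) ^ A = (p : K) ^ B) : (D g z' w' s) ^ A = (p : L) ^ B := by
  obtain ⟨e, he1, he2⟩ := Nat.chineseRemainder hmp 1 0
  obtain ⟨f, hf1, hf2⟩ := Nat.chineseRemainder hmp 0 1
  have hef : ∀ {M : Type _} [Field M] {x y : M}, IsPrimitiveRoot x m → IsPrimitiveRoot y p →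
      (x * y) ^ e = x ∧ (x * y) ^ f = y := by
    intro M _ x y hx hy
    rw [mul_pow, mul_pow]
    constructor
    · rw [pow_eq_pow_of_modEq he1 hx.pow_eq_one, pow_eq_pow_of_modEq he2 hy.pow_eq_one, pow_one,
        pow_zero, mul_one]
    · rw [pow_eq_pow_of_modEq hf1 hx.pow_eq_one, pow_eq_pow_of_modEq hf2 hy.pow_eq_one, pow_one,
        pow_zero, one_mul]
  have hef' : (z' * w') ^ e = z' ∧ (z' * w') ^ f = w' := by
    rw [mul_pow, mul_pow]
    constructor
    · rw [pow_eq_pow_of_modEq he1 hz'.pow_eq_one, pow_eq_pow_of_modEq he2 hw'.pow_eq_one, pow_one,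
        pow_zero, mul_one]
    · rw [pow_eq_pow_of_modEq hf1 hz'.pow_eq_one, pow_eq_pow_of_modEq hf2 hw'.pow_eq_one, pow_one,
        pow_zero, one_mul]
  have h1 := isPrimitiveRoot_mul hmp hz hw
  have h2 := isPrimitiveRoot_mul hmp hz' hw'
  have h3 := transfer (Nat.mul_pos hm hp.out.pos) h1 h2
    ((D g (X ^ e : ℤ[X]) (X ^ f) s) ^ A - (p : ℤ[X]) ^ B) (by
      rw [map_sub, map_pow, map_pow, aeval_D, (hef hz hw).1, (hef hz hw).2, map_natCast, h,
        sub_self])
  rw [map_sub, map_pow, map_pow, aeval_D, hef'.1, hef'.2, map_natCast] at h3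
  exact sub_eq_zero.mp h3

lemma exists_prim (p : ℕ) [hp : Fact p.Prime] : ∃ w : PadicAlgCl p, IsPrimitiveRoot w p := by
  have : NeZero ((p : ℕ) : PadicAlgCl p) := ⟨by exact_mod_cast hp.out.ne_zero⟩
  exact HasEnoughRootsOfUnity.exists_primitiveRoot (PadicAlgCl p) p

lemma isPrimitiveRoot_teich_pow {g : (ZMod p)ˣ} (hg : ∀ x : (ZMod p)ˣ, x ∈ Subgroup.zpowers g)
    {τ : ℤ_[p]} (hτ1 : τ ^ (p - 1) = 1) (hτ : PadicInt.toZMod τ = (g : ZMod p)) {m d : ℕ}
    (hmd : p - 1 = d * m) (t : (ZMod m)ˣ) :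
    IsPrimitiveRoot (iota p τ ^ (d * (-(t : ZMod m)).val)) m := by
  have hp1 := hp.out.one_lt
  have h1 := isPrimitiveRoot_teich hg hτ1 hτ
  have h2 : IsPrimitiveRoot (iota p τ ^ d) m := h1.pow (by omega) hmd
  rw [pow_mul]
  apply h2.pow_of_coprime
  have h3 := ZMod.val_coe_unit_coprime (-t)
  rwa [Units.val_neg] at h3

/-- If the product of the Gauss sums of `s` is, up to a root of unity, `p ^ (card s / 2)` for one
prime `p`, then `s` satisfies Stickelberger's condition. -/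
theorem tate_of_frob {m : ℕ} [NeZero m] {s : Multiset (ZMod m)} (hs : (0 : ZMod m) ∉ s)
    (χ : MulChar (ZMod p) ℂ) (ψ : AddChar (ZMod p) ℂ) (hχ : orderOf χ = m) (hψ : ψ ≠ 1) (N : ℕ)
    (hN : 0 < N)
    (h : (s.map fun a => gaussSum (χ ^ a.val) ψ).prod ^ (2 * N) = (p : ℂ) ^ (s.card * N))
    (t : (ZMod m)ˣ) : 2 * (s.map fun a => ((t : ZMod m) * a).val).sum = m * s.card := by
  obtain ⟨g, hg⟩ := IsCyclic.exists_generator (α := (ZMod p)ˣ)
  obtain ⟨τ, hτ1, hτ⟩ := exists_teich g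
  obtain ⟨w, hw⟩ := exists_prim p
  have hp1 := hp.out.one_lt
  have hdvd : m ∣ p - 1 := hχ ▸ dvd_of_orderOf hg χ
  obtain ⟨d, hd⟩ := hdvd
  rw [mul_comm] at hd
  have hd0 : 0 < d := by
    rcases Nat.eq_zero_or_pos d with h | h
    · subst h; omega
    · exact h
  have hm : 0 < m := NeZero.pos m
  have hcop : m.Coprime p := coprime_of_dvd_sub_one (Dvd.intro_left d hd.symm)
  have h1 : (s.map fun a => gaussSum (χ ^ a.val) ψ).prod = D g (χ g) (ψ 1) s := by
    unfold D
    congr 1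
    exact Multiset.map_congr rfl fun a _ => gaussSum_eq_S hg χ ψ a.val
  rw [h1] at h
  have h2 := transfer_D hm hcop g (hχ ▸ isPrimitiveRoot_mulChar hg χ)
    (isPrimitiveRoot_addChar ψ hψ) (isPrimitiveRoot_teich_pow hg hτ1 hτ hd t) hw s (2 * N)
    (s.card * N) h
  have h3 := congrArg norm h2
  rw [norm_pow, norm_pow, norm_D hg hτ1 hτ hw hd t s hs, norm_p_K, ← norm_pi hw, ← pow_mul,
    ← pow_mul] at h3
  have h4 : 0 < ‖1 - w‖ := by rw [norm_sub_rev]; exact norm_pi_pos hw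
  have h5 : ‖1 - w‖ ≠ 1 := by rw [norm_sub_rev]; exact (norm_pi_lt_one hw).ne
  have h6 := pow_right_injective₀ h4 h5 h3

  rw [hd] at h6
  have h7 : (d * N) * (2 * (s.map fun a => ((t : ZMod m) * a).val).sum) =
      (d * N) * (m * s.card) := by linarith
  exact Nat.eq_of_mul_eq_mul_left (Nat.mul_pos hd0 hN) h7

end main

section integrality

lemma rat_isInt {c : ℚ} (h : ∀ (l : ℕ) [Fact l.Prime], ‖(c : ℚ_[l])‖ ≤ 1) :
    c ∈ (Int.castRingHom ℚ).range := by
  have hden : c.den = 1 := by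
    by_contra hne
    obtain ⟨l, hl, hld⟩ := Nat.exists_prime_and_dvd hne
    have : Fact l.Prime := ⟨hl⟩
    have h1 := (Padic.norm_rat_le_one_iff_padicValuation_le_one l).mp (h l)
    exact (Rat.padicValuation_le_one_iff.mp h1) hld
  exact ⟨c.num, by simpa using (Rat.den_eq_one_iff c).mp hden⟩

/-- coefficients of a product of linear factors with roots in the unit ball -/
lemma norm_coeff_prod_le {l : ℕ} [Fact l.Prime] (r : Multiset (PadicAlgCl l))
    (hr : ∀ x ∈ r, ‖x‖ ≤ 1) (n : ℕ) :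
    ‖((r.map fun x => (X - C x : (PadicAlgCl l)[X])).prod).coeff n‖ ≤ 1 := by
  induction r using Multiset.induction_on generalizing n with
  | empty =>
    simp only [Multiset.map_zero, Multiset.prod_zero, coeff_one]
    split_ifs <;> simp
  | cons a r ih =>
    have ih' := ih (fun x hx => hr x (Multiset.mem_cons_of_mem hx))
    rw [Multiset.map_cons, Multiset.prod_cons, sub_mul, coeff_sub]
    rw [sub_eq_add_neg]
    refine (IsUltrametricDist.norm_add_le_max _ _).trans (max_le ?_ ?_)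
    · cases n with
      | zero => simp
      | succ n => rw [coeff_X_mul]; exact ih' n
    · rw [norm_neg, coeff_C_mul, norm_mul]
      exact mul_le_one₀ (hr a (Multiset.mem_cons_self _ _)) (norm_nonneg _) (ih' n)

/-- An element of a number field whose images in all the `l`-adic fields lie in the unit ball is an
algebraic integer. -/
lemma isIntegral_of_norm_le {F : Type*} [Field F] [NumberField F] {u : F}
    (h : ∀ (l : ℕ) [Fact l.Prime] (φ : F →+* PadicAlgCl l), ‖φ u‖ ≤ 1) : IsIntegral ℤ u := by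
  have hint : IsIntegral ℚ u := Algebra.IsIntegral.isIntegral u
  have hmon := minpoly.monic hint
  have hcoef : ∀ n, (minpoly ℚ u).coeff n ∈ (Int.castRingHom ℚ).range := by
    intro n
    apply rat_isInt
    intro l hl
    have h1 : ((minpoly ℚ u).map (algebraMap ℚ (PadicAlgCl l))) =
        (((minpoly ℚ u).map (algebraMap ℚ (PadicAlgCl l))).roots.map fun x => X - C x).prod :=
      ((IsAlgClosed.splits _).eq_prod_roots_of_monic (hmon.map _))
    have h2 := norm_coeff_prod_le (l := l)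
      ((minpoly ℚ u).map (algebraMap ℚ (PadicAlgCl l))).roots (by
        intro x hx
        have h3 : x ∈ (minpoly ℚ u).rootSet (PadicAlgCl l) := by
          rw [mem_rootSet]
          refine ⟨hmon.ne_zero, ?_⟩
          have := (mem_roots'.mp hx).2
          rwa [IsRoot.def, eval_map_algebraMap] at this
        rw [← Algebra.IsAlgebraic.range_eval_eq_rootSet_minpoly] at h3
        obtain ⟨ψ, hψ⟩ := h3
        rw [← hψ]
        exact h l (ψ : F →+* PadicAlgCl l)) n
    rw [← h1, coeff_map] at h2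
    have h4 : algebraMap ℚ (PadicAlgCl l) ((minpoly ℚ u).coeff n) =
        algebraMap ℚ_[l] (PadicAlgCl l) (((minpoly ℚ u).coeff n : ℚ) : ℚ_[l]) := by
      rw [map_ratCast]
      simp
    rw [h4, PadicAlgCl.norm_extends] at h2
    exact h2
  have hlift : (minpoly ℚ u) ∈ lifts (Int.castRingHom ℚ) := by
    rw [lifts_iff_coeff_lifts]
    intro n
    obtain ⟨z, hz⟩ := hcoef n
    exact ⟨z, hz⟩
  obtain ⟨q, hq1, -, hq2⟩ := lifts_and_degree_eq_and_monic hlift hmon
  refine ⟨q, hq2, ?_⟩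
  have h5 := minpoly.aeval ℚ u
  rw [← hq1, aeval_def, eval₂_map] at h5
  have h6 : algebraMap ℤ F = (algebraMap ℚ F).comp (Int.castRingHom ℚ) := RingHom.ext_int _ _
  rw [h6]
  exact h5

end integrality

section converse

variable {p : ℕ} [hp : Fact p.Prime]

/-- the absolute value of a Gauss sum -/
lemma norm_S_complex {g : (ZMod p)ˣ} (hg : ∀ x : (ZMod p)ˣ, x ∈ Subgroup.zpowers g) {z w : ℂ}
    {m : ℕ} (hm : m ∣ p - 1) (hz : IsPrimitiveRoot z m) (hw : IsPrimitiveRoot w p) {a : ℕ}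
    (ha0 : 0 < a) (ha : a < m) : ‖S g z w a‖ ^ 2 = p := by
  classical
  have hm0 : m ≠ 0 := by omega
  let zu : ℂˣ := (hz.isUnit hm0).unit
  have hzu : (zu : ℂ) = z := IsUnit.unit_spec _
  have hmem : zu ∈ rootsOfUnity (Fintype.card (ZMod p)ˣ) ℂ := by
    rw [mem_rootsOfUnity, ZMod.card_units]
    ext
    rw [Units.val_pow_eq_pow_val, hzu, Units.val_one]
    exact (hz.pow_eq_one_iff_dvd _).mpr hm
  let χ : MulChar (ZMod p) ℂ := MulChar.ofRootOfUnity hmem hg
  have hχg : χ g = z := by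
    have := MulChar.ofRootOfUnity_spec hmem hg
    rw [hzu] at this
    exact this
  let ψ : AddChar (ZMod p) ℂ := AddChar.zmodChar p hw.pow_eq_one
  have hψ1 : ψ 1 = w := by
    have := AddChar.zmodChar_apply' (n := p) hw.pow_eq_one 1
    rw [Nat.cast_one, pow_one] at this
    exact this
  have hψ : ψ ≠ 1 := by
    intro h
    rw [h, AddChar.one_apply] at hψ1
    exact hw.ne_one hp.out.one_lt hψ1.symm
  have hχa : χ ^ a ≠ 1 := by
    intro h
    have h1 : (χ ^ a) (g : ZMod p) = 1 := by rw [h, MulChar.one_apply_coe]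
    rw [MulChar.pow_apply_coe, hχg] at h1
    have h2 := Nat.le_of_dvd ha0 (hz.dvd_of_pow_eq_one a h1)
    omega
  have h1 := gaussSum_mul_gaussSum_eq_card hχa (AddChar.IsPrimitive.of_ne_one hψ)
  rw [← star_gaussSum_eq, gaussSum_eq_S hg, hχg, hψ1, ZMod.card] at h1
  have h2 : ((‖S g z w a‖ ^ 2 : ℝ) : ℂ) = p := by
    rw [← h1, ← Complex.normSq_eq_norm_sq, ← Complex.mul_conj]
    rfl
  exact_mod_cast h2

lemma norm_D_complex {g : (ZMod p)ˣ} (hg : ∀ x : (ZMod p)ˣ, x ∈ Subgroup.zpowers g) {z w : ℂ}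
    {m : ℕ} [NeZero m] (hm : m ∣ p - 1) (hz : IsPrimitiveRoot z m) (hw : IsPrimitiveRoot w p)
    (s : Multiset (ZMod m)) (hs : (0 : ZMod m) ∉ s) : ‖D g z w s‖ ^ 2 = (p : ℝ) ^ s.card := by
  unfold D
  induction s using Multiset.induction_on with
  | empty => simp
  | cons a s ih =>
    rw [Multiset.map_cons, Multiset.prod_cons, norm_mul, mul_pow,
      ih (fun h => hs (Multiset.mem_cons_of_mem h)), Multiset.card_cons, pow_succ' (p : ℝ)]
    have ha : a ≠ 0 := fun h => hs (h ▸ Multiset.mem_cons_self a s)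
    rw [norm_S_complex hg hm hz hw (Nat.pos_of_ne_zero ((ZMod.val_ne_zero _).mpr ha))
      (ZMod.val_lt a)]

lemma norm_S_le {l : ℕ} [Fact l.Prime] (g : (ZMod p)ˣ) {z w : PadicAlgCl l} (hz : ‖z‖ = 1)
    (hw : ‖w‖ = 1) (a : ℕ) : ‖S g z w a‖ ≤ 1 := by
  refine norm_sum_le_K _ _ zero_le_one fun i _ => ?_
  rw [norm_mul, norm_pow, norm_pow, hz, hw, one_pow, one_pow, one_mul]

lemma norm_D_le {l : ℕ} [Fact l.Prime] (g : (ZMod p)ˣ) {z w : PadicAlgCl l} (hz : ‖z‖ = 1)
    (hw : ‖w‖ = 1) {m : ℕ} (s : Multiset (ZMod m)) : ‖D g z w s‖ ≤ 1 := by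
  unfold D
  induction s using Multiset.induction_on with
  | empty => simp
  | cons a s ih =>
    rw [Multiset.map_cons, Multiset.prod_cons, norm_mul]
    exact mul_le_one₀ (norm_S_le g hz hw _) (norm_nonneg _) ih

lemma exists_numberField (n : ℕ) [NeZero n] :
    ∃ (F : Type) (_ : Field F) (_ : NumberField F) (x : F), IsPrimitiveRoot x n := by
  have h : IsCyclotomicExtension {n} ℚ (CyclotomicField n ℚ) :=
    CyclotomicField.isCyclotomicExtension n ℚ
  exact ⟨CyclotomicField n ℚ, inferInstance, inferInstance, _,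
    IsCyclotomicExtension.zeta_spec n ℚ (CyclotomicField n ℚ)⟩

/-- the number field step -/
lemma frob_number_field {F : Type} [Field F] [NumberField F] {m : ℕ} [NeZero m] {x : F}
    (hx : IsPrimitiveRoot x (m * p)) {g : (ZMod p)ˣ}
    (hg : ∀ x : (ZMod p)ˣ, x ∈ Subgroup.zpowers g) {d : ℕ} (hd : p - 1 = d * m)
    {s : Multiset (ZMod m)} (hs : (0 : ZMod m) ∉ s)
    (ht : ∀ t : (ZMod m)ˣ, 2 * (s.map fun a => ((t : ZMod m) * a).val).sum = m * s.card) :
    ∃ N, 0 < N ∧ (D g (x ^ p) (x ^ m) s) ^ (2 * N) = (p : F) ^ (s.card * N) := by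
  have hp1 := hp.out.one_lt
  have hm : 0 < m := NeZero.pos m
  have hz : IsPrimitiveRoot (x ^ p) m := hx.pow (Nat.mul_pos hm hp.out.pos) (mul_comm m p)
  have hw : IsPrimitiveRoot (x ^ m) p := hx.pow (Nat.mul_pos hm hp.out.pos) rfl
  have hp0 : (p : F) ≠ 0 := by exact_mod_cast hp.out.ne_zero
  set u : F := (D g (x ^ p) (x ^ m) s) ^ 2 / (p : F) ^ s.card with hu
  have hφ : ∀ {L : Type} [Field L] (φ : F →+* L), φ u =
      (D g (φ (x ^ p)) (φ (x ^ m)) s) ^ 2 / (p : L) ^ s.card := by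
    intro L _ φ
    rw [hu, map_div₀, map_pow, map_pow, map_natCast, map_D]
  have hint : IsIntegral ℤ u := by
    apply isIntegral_of_norm_le
    intro l hl φ
    have hz' : IsPrimitiveRoot (φ (x ^ p)) m := hz.map_of_injective φ.injective
    have hw' : IsPrimitiveRoot (φ (x ^ m)) p := hw.map_of_injective φ.injective
    rw [hφ φ, norm_div, norm_pow, norm_pow]
    by_cases hlp : l = p
    · subst hlp
      obtain ⟨τ, hτ1, hτ⟩ := exists_teich g
      have h2 : IsPrimitiveRoot (iota l τ ^ d) m :=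
        (isPrimitiveRoot_teich hg hτ1 hτ).pow (by omega) hd
      obtain ⟨c, hc, hc'⟩ := h2.eq_pow_of_pow_eq_one hz'.pow_eq_one
      have hcc : c.Coprime m := (h2.pow_iff_coprime hm c).mp (hc' ▸ hz')
      have h3 : (-((-(ZMod.unitOfCoprime c hcc) : (ZMod m)ˣ) : ZMod m)).val = c := by
        rw [Units.val_neg, neg_neg, ZMod.coe_unitOfCoprime, ZMod.val_natCast,
          Nat.mod_eq_of_lt hc]
      have h4 := norm_D hg hτ1 hτ hw' hd (-(ZMod.unitOfCoprime c hcc)) s hs
      rw [h3, pow_mul, hc'] at h4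
      rw [h4, norm_p_K, ← norm_pi hw', ← pow_mul, ← pow_mul]
      have h5 := ht (-(ZMod.unitOfCoprime c hcc))
      have h6 : d * (s.map fun a =>
          (((-(ZMod.unitOfCoprime c hcc) : (ZMod m)ˣ) : ZMod m) * a).val).sum * 2 =
          (l - 1) * s.card := by
        rw [hd, mul_assoc, mul_comm _ 2, h5]
        ring
      rw [h6]
      exact div_self_le_one _
    · have h7 : ‖((p : ℕ) : PadicAlgCl l)‖ = 1 := by
        rw [← map_natCast (iota l) p, norm_iota]
        apply le_antisymm (PadicInt.norm_le_one _)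
        by_contra hc
        have h8 := not_le.mp hc
        have h9 : (l : ℤ) ∣ (p : ℤ) := by
          rw [← PadicInt.norm_int_lt_one_iff_dvd]
          exact_mod_cast h8
        have h10 : l ∣ p := by exact_mod_cast h9
        exact hlp ((Nat.prime_dvd_prime_iff_eq hl.out hp.out).mp h10)
      rw [h7, one_pow, div_one]
      refine pow_le_one₀ (norm_nonneg _) ?_
      apply norm_D_le
      · exact norm_eq_one_of_pow hm.ne' hz'.pow_eq_one
      · exact norm_eq_one_of_pow hp.out.ne_zero hw'.pow_eq_one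
  have hnorm : ∀ φ : F →+* ℂ, ‖φ u‖ = 1 := by
    intro φ
    have hz' : IsPrimitiveRoot (φ (x ^ p)) m := hz.map_of_injective φ.injective
    have hw' : IsPrimitiveRoot (φ (x ^ m)) p := hw.map_of_injective φ.injective
    rw [hφ φ, norm_div, norm_pow, norm_pow,
      norm_D_complex hg (Dvd.intro_left d hd.symm) hz' hw' s hs, Complex.norm_natCast]
    apply div_self
    have : (p : ℝ) ≠ 0 := by exact_mod_cast hp.out.ne_zero
    exact pow_ne_zero _ this
  obtain ⟨N, hN, hN'⟩ := NumberField.Embeddings.pow_eq_one_of_norm_eq_one F ℂ hint hnorm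
  refine ⟨N, hN, ?_⟩
  rw [hu, div_pow, div_eq_one_iff_eq (pow_ne_zero _ (pow_ne_zero _ hp0)), ← pow_mul,
    ← pow_mul] at hN'
  exact hN'

/-- Stickelberger's condition implies that the product of the Gauss sums is, up to a root of
unity, a power of `p ^ (1/2)`. -/
theorem frob_of_tate {m : ℕ} [NeZero m] {s : Multiset (ZMod m)} (hs : (0 : ZMod m) ∉ s)
    (ht : ∀ t : (ZMod m)ˣ, 2 * (s.map fun a => ((t : ZMod m) * a).val).sum = m * s.card)
    (χ : MulChar (ZMod p) ℂ) (ψ : AddChar (ZMod p) ℂ) (hχ : orderOf χ = m) (hψ : ψ ≠ 1) :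
    ∃ N, 0 < N ∧
      (s.map fun a => gaussSum (χ ^ a.val) ψ).prod ^ (2 * N) = (p : ℂ) ^ (s.card * N) := by
  obtain ⟨g, hg⟩ := IsCyclic.exists_generator (α := (ZMod p)ˣ)
  have hdvd : m ∣ p - 1 := hχ ▸ dvd_of_orderOf hg χ
  obtain ⟨d, hd⟩ := hdvd
  rw [mul_comm] at hd
  have hm : 0 < m := NeZero.pos m
  have hcop : m.Coprime p := coprime_of_dvd_sub_one (Dvd.intro_left d hd.symm)
  have h1 : (s.map fun a => gaussSum (χ ^ a.val) ψ).prod = D g (χ g) (ψ 1) s := by
    unfold D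
    congr 1
    exact Multiset.map_congr rfl fun a _ => gaussSum_eq_S hg χ ψ a.val
  rw [h1]
  have hmp : NeZero (m * p) := ⟨(Nat.mul_pos hm hp.out.pos).ne'⟩
  obtain ⟨F, hF1, hF2, x, hx⟩ := exists_numberField (m * p)
  obtain ⟨N, hN, hN'⟩ := frob_number_field hx hg hd hs ht
  refine ⟨N, hN, ?_⟩
  exact transfer_D hm hcop g (hx.pow (Nat.mul_pos hm hp.out.pos) (mul_comm m p))
    (hx.pow (Nat.mul_pos hm hp.out.pos) rfl) (hχ ▸ isPrimitiveRoot_mulChar hg χ)
    (isPrimitiveRoot_addChar ψ hψ) s (2 * N) (s.card * N) hN'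

end converse

/-- `FrobTate s`: `s` is a multiset of nonzero residues modulo `m` with sum zero, such that for every
prime `p` (necessarily `1` modulo `m`), every character `χ` of order `m` of the multiplicative group
modulo `p` and every nontrivial additive character `ψ` modulo `p` some power of the product of the
Gauss sums `g(χ ^ a, ψ)`, `a ∈ s`, divided by `p ^ (card s / 2)`, is one. -/
def FrobTate {m : ℕ} (s : Multiset (ZMod m)) : Prop :=
  (0 : ZMod m) ∉ s ∧ s.sum = 0 ∧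
    ∀ (p : ℕ) [Fact p.Prime] (χ : MulChar (ZMod p) ℂ) (ψ : AddChar (ZMod p) ℂ),
      orderOf χ = m → ψ ≠ 1 → ∃ N, 0 < N ∧
        (s.map fun a => gaussSum (χ ^ a.val) ψ).prod ^ (2 * N) = (p : ℂ) ^ (s.card * N)

/-- there is a prime `p` with characters as required -/
lemma exists_chars (m : ℕ) [NeZero m] : ∃ (p : ℕ) (_ : Fact p.Prime) (χ : MulChar (ZMod p) ℂ)
    (ψ : AddChar (ZMod p) ℂ), orderOf χ = m ∧ ψ ≠ 1 := by
  have hm : m ≠ 0 := NeZero.ne m
  obtain ⟨p, hp, -, hpm⟩ := Nat.exists_prime_gt_modEq_one 1 hm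
  have hp' : Fact p.Prime := ⟨hp⟩
  have hdvd : m ∣ Fintype.card (ZMod p) - 1 := by
    rw [ZMod.card]
    exact (Nat.modEq_iff_dvd' hp.one_lt.le).mp hpm.symm
  obtain ⟨χ, hχ⟩ := MulChar.exists_mulChar_orderOf (ZMod p) hdvd
    (Complex.isPrimitiveRoot_exp m hm)
  have hw : IsPrimitiveRoot (Complex.exp (2 * Real.pi * Complex.I / p)) p :=
    Complex.isPrimitiveRoot_exp p hp.ne_zero
  refine ⟨p, hp', χ, AddChar.zmodChar p hw.pow_eq_one, hχ, ?_⟩
  intro h
  have h1 := AddChar.zmodChar_apply' (n := p) hw.pow_eq_one 1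
  rw [h, AddChar.one_apply, pow_one] at h1
  exact hw.ne_one hp.one_lt h1.symm

/-- Frobenius form of Stickelberger's condition -/
theorem frobTate_iff {m : ℕ} [NeZero m] (s : Multiset (ZMod m)) :
    FrobTate s ↔ (0 : ZMod m) ∉ s ∧ s.sum = 0 ∧
      ∀ t : (ZMod m)ˣ, 2 * (s.map fun a => ((t : ZMod m) * a).val).sum = m * s.card := by
  constructor
  · rintro ⟨h0, h1, h2⟩
    refine ⟨h0, h1, fun t => ?_⟩
    obtain ⟨p, hp, χ, ψ, hχ, hψ⟩ := exists_chars m
    obtain ⟨N, hN, hN'⟩ := h2 p χ ψ hχ hψ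
    exact tate_of_frob h0 χ ψ hχ hψ N hN hN' t
  · rintro ⟨h0, h1, h2⟩
    exact ⟨h0, h1, fun p _ χ ψ hχ hψ => frob_of_tate h0 h2 χ ψ hχ hψ⟩

end Pool.Agent.Lib.MP_938ce2_ag_h6.Frob
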