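import Pool.Agent.Lib.MP_938ce2_ag_h6.Frobenius
import Pool.Agent.Lib.MP_938ce2_ag_H7.Core

/-!
# Families of elements of `ℚ / ℤ` and the Frobenius form of the Tate condition

`isTate_toAddCircle_iff`: for a family `b` of residues modulo `m`, indexed by a set with an even
number of elements, the family `b / m` of elements of `ℚ / ℤ` is a Tate family iff the multiset of
the `b i` satisfies the Frobenius condition `FrobTate`.
-/

set_option autoImplicit false

namespace Pool.Agent.Lib.MP_938ce2_ag_h6.Frob

open Finset Pool.Agent.Lib.MP_938ce2_ag_H7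

variable {ι : Type*} [Fintype ι] {m : ℕ} [NeZero m]

lemma fr_toAddCircle (c : ZMod m) : fr (ZMod.toAddCircle c) = c.val / m := by
  have hm : (0 : ℝ) < m := by exact_mod_cast NeZero.pos m
  rw [ZMod.toAddCircle_apply]
  apply fr_coe_of_mem
  · positivity
  · rw [div_lt_one hm]
    exact_mod_cast ZMod.val_lt c

lemma nsmul_toAddCircle (t : ℕ) (c : ZMod m) :
    t • ZMod.toAddCircle c = ZMod.toAddCircle ((t : ZMod m) * c) := by
  rw [← map_nsmul, nsmul_eq_mul]

lemma addOrderOf_toAddCircle_dvd (c : ZMod m) : addOrderOf (ZMod.toAddCircle c) ∣ m := by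
  rw [addOrderOf_dvd_iff_nsmul_eq_zero, nsmul_toAddCircle, ZMod.natCast_self, zero_mul, map_zero]

lemma sum_fr_eq (t : ℕ) (b : ι → ZMod m) :
    ∑ i, fr (t • ZMod.toAddCircle (b i)) = (∑ i, ((t : ZMod m) * b i).val : ℕ) / (m : ℝ) := by
  rw [Nat.cast_sum, sum_div]
  refine sum_congr rfl fun i _ => ?_
  rw [nsmul_toAddCircle, fr_toAddCircle]

lemma sum_fr_iff (t : ℕ) (b : ι → ZMod m) :
    ∑ i, fr (t • ZMod.toAddCircle (b i)) = (Fintype.card ι : ℝ) / 2 ↔
      2 * ∑ i, ((t : ZMod m) * b i).val = m * Fintype.card ι := by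
  have hm : (m : ℝ) ≠ 0 := by exact_mod_cast NeZero.ne m
  rw [sum_fr_eq, div_eq_div_iff hm two_ne_zero]
  constructor
  · intro h
    have : ((∑ i, ((t : ZMod m) * b i).val : ℕ) : ℝ) * ((2 : ℕ) : ℝ) = (Fintype.card ι : ℝ) * m := by
      exact_mod_cast h
    have h2 : (∑ i, ((t : ZMod m) * b i).val) * 2 = Fintype.card ι * m := by exact_mod_cast this
    linarith
  · intro h
    have h2 : (∑ i, ((t : ZMod m) * b i).val) * 2 = Fintype.card ι * m := by linarith
    exact_mod_cast h2

/-- The Tate condition for a family of elements of `ℚ / ℤ` in the Frobenius form. -/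
theorem isTate_toAddCircle_iff (hN : Even (Fintype.card ι)) (b : ι → ZMod m) :
    IsTate (fun i => ZMod.toAddCircle (b i)) ↔ FrobTate (univ.val.map b) := by
  rw [frobTate_iff]
  have hsum : ∀ t : (ZMod m)ˣ, (((univ.val.map b).map fun a => ((t : ZMod m) * a).val).sum) =
      ∑ i, ((((t : ZMod m).val : ℕ) : ZMod m) * b i).val := by
    intro t
    rw [Multiset.map_map, ZMod.natCast_zmod_val]
    rfl
  have hcard : (univ.val.map b).card = Fintype.card ι := by
    rw [Multiset.card_map]
    rfl
  constructor
  · intro h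
    have ht : ∀ t : (ZMod m)ˣ,
        2 * ((univ.val.map b).map fun a => ((t : ZMod m) * a).val).sum = m * (univ.val.map b).card := by
      intro t
      rw [hsum, hcard, ← sum_fr_iff]
      apply h.sum_eq
      intro i
      exact Nat.Coprime.coprime_dvd_right (addOrderOf_toAddCircle_dvd _) (ZMod.val_coe_unit_coprime t)
    refine ⟨?_, ?_, ht⟩
    · intro h0
      obtain ⟨i, -, hi⟩ := Multiset.mem_map.mp h0
      exact h.ne_zero i (by simp [hi])
    · have h1 := ht 1
      rw [hcard] at h1
      obtain ⟨k, hk⟩ := hN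
      rw [hk] at h1
      have h2 : ((univ.val.map b).map fun a => (((1 : (ZMod m)ˣ) : ZMod m) * a).val).sum = m * k := by
        have : 2 * ((univ.val.map b).map fun a => (((1 : (ZMod m)ˣ) : ZMod m) * a).val).sum =
          2 * (m * k) := by rw [h1]; ring
        omega
      have h3 := congrArg (Nat.cast : ℕ → ZMod m) h2
      rw [Nat.cast_multiset_sum, Multiset.map_map, Nat.cast_mul, ZMod.natCast_self, zero_mul] at h3
      rw [← h3]
      congr 1
      conv_lhs => rw [← Multiset.map_id (univ.val.map b)]
      refine Multiset.map_congr rfl fun a _ => ?_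
      simp
  · rintro ⟨h0, -, ht⟩
    refine ⟨?_, ?_, ?_⟩
    · intro i hi
      apply h0
      rw [ZMod.toAddCircle_eq_zero] at hi
      exact Multiset.mem_map.mpr ⟨i, mem_univ i, hi⟩
    · intro i
      rw [← addOrderOf_pos_iff]
      exact Nat.pos_of_dvd_of_pos (addOrderOf_toAddCircle_dvd _) (NeZero.pos m)
    · intro t hcop
      set L := univ.lcm (fun i => addOrderOf (ZMod.toAddCircle (b i))) with hL
      have hLm : L ∣ m := Finset.lcm_dvd fun i _ => addOrderOf_toAddCircle_dvd _
      have htL : t.Coprime L := by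
        rw [hL]
        have : ∀ s : Finset ι, t.Coprime (s.lcm (fun i => addOrderOf (ZMod.toAddCircle (b i)))) := by
          classical
          intro s
          induction s using Finset.induction_on with
          | empty => simp
          | insert i s _ ih =>
            rw [Finset.lcm_insert]
            exact Nat.Coprime.coprime_dvd_right (lcm_dvd_mul _ _) ((hcop i).mul_right ih)
        exact this _
      obtain ⟨t', ht'⟩ := ZMod.unitsMap_surjective hLm (ZMod.unitOfCoprime t htL)
      have h1 : ((t' : ZMod m).val : ℕ) ≡ t [MOD L] := by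
        rw [← ZMod.natCast_eq_natCast_iff]
        have h2 := congrArg Units.val ht'
        rw [ZMod.unitsMap_def, Units.coe_map, ZMod.coe_unitOfCoprime] at h2
        rw [← h2]
        simp
      have h3 : ∀ i, t • ZMod.toAddCircle (b i) = (t' : ZMod m).val • ZMod.toAddCircle (b i) := by
        intro i
        rw [nsmul_eq_nsmul_iff_modEq]
        have h5 : addOrderOf (ZMod.toAddCircle (b i)) ∣ L := by
          rw [hL]
          exact Finset.dvd_lcm (f := fun i => addOrderOf (ZMod.toAddCircle (b i))) (mem_univ i)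
        exact (h1.symm).of_dvd h5
      have h4 := ht t'
      rw [hsum, hcard, ← sum_fr_iff] at h4
      rw [← h4]
      exact sum_congr rfl fun i _ => by rw [h3 i]

/-- elements of the circle killed by `M` come from residues modulo `M` -/
lemma exists_toAddCircle {M : ℕ} [NeZero M] {x : UnitAddCircle} (h : M • x = 0) :
    ∃ c : ZMod M, ZMod.toAddCircle c = x := by
  have hM : (0 : ℝ) < M := by exact_mod_cast NeZero.pos M
  rw [← coe_fr x, ← AddCircle.coe_nsmul, AddCircle.coe_eq_zero_iff] at h
  obtain ⟨n, hn⟩ := h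
  refine ⟨(n : ZMod M), ?_⟩
  rw [ZMod.toAddCircle_intCast, ← coe_fr x]
  congr 1
  rw [div_eq_iff hM.ne']
  have : (n : ℝ) = M * fr x := by simpa using hn
  rw [this, mul_comm]

end Pool.Agent.Lib.MP_938ce2_ag_h6.Frob
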