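import Pool.Agent.Lib.MP_938ce2_ag_h6.Reduce

/-!
Candidate statement: reduction of the degree of Fermat varieties.
-/

set_option autoImplicit false

namespace Pool.Agent.Lib.MP_938ce2_ag_h6.Candidate

open Pool.Agent.Lib.MP_938ce2_ag_h6 Pool.Agent.Lib.MP_938ce2_ag_h99

lemma jj_eq {m f : ℕ} [NeZero m] [NeZero f] (hf : f ∣ m) (x : ZMod f) :
    jj hf x = ((m / f * x.val : ℕ) : ZMod m) := by
  rw [← jj_val hf x, ZMod.natCast_zmod_val]

/-- Let `m' ∣ m` have the same odd prime divisors as `m`, and `4 ∣ m'` if `4 ∣ m`. Every Tate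
character `s` of a Fermat variety of degree `m` differs from the lift of a Tate character `s0` of
degree `m'` by an algebraic one. -/
theorem result (m m' : ℕ) [NeZero m] [NeZero m'] (hm : m' ∣ m)
    (hp : ∀ p, p.Prime → p ≠ 2 → p ∣ m → p ∣ m') (h4 : 4 ∣ m → 4 ∣ m')
    (s : Multiset (ZMod m)) (hs : IsTate s) :
    ∃ s0 : Multiset (ZMod m'), IsTate s0 ∧
      IsAlg (s + s0.map fun x => -((m / m' * x.val : ℕ) : ZMod m)) := by
  obtain ⟨s0, h1, h2⟩ := exists_core hm hp h4 hs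
  refine ⟨s0, h1, ?_⟩
  rw [Multiset.map_map] at h2
  have h3 : (fun x : ZMod m' => -((m / m' * x.val : ℕ) : ZMod m)) = (fun x => -x) ∘ (jj hm) := by
    funext x
    rw [Function.comp_apply, jj_eq]
  rw [h3]
  exact h2

end Pool.Agent.Lib.MP_938ce2_ag_h6.Candidate
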