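import Pool.Agent.Lib.MP_938ce2_ag_h99.MainB

/-!
From relations between odd functions to characters of Fermat varieties.

`IsTate` : multisets of non-zero residues satisfying the Tate (Hodge) condition.
`IsAlg` : the characters generated from those of Fermat surfaces and Aoki's ones by joins and cuts.
-/

set_option autoImplicit false
set_option linter.style.haveILetI false
set_option linter.unusedSectionVars false

open Finset

namespace Pool.Agent.Lib.MP_938ce2_ag_h6

open Pool.Agent.Lib.MP_938ce2_ag_h99 (OddF TateF nrm w Eff sz relSub rel)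

variable {m : ℕ} [NeZero m]

/-- Tate characters of Fermat varieties of degree `m` -/
def IsTate (s : Multiset (ZMod m)) : Prop :=
  (0 : ZMod m) ∉ s ∧ s.sum = 0 ∧
    ∀ t : (ZMod m)ˣ, 2 * (s.map fun a => ((t : ZMod m) * a).val).sum = m * s.card

/-- Characters produced by the known geometric constructions. -/
inductive IsAlg : Multiset (ZMod m) → Prop
  | low (s : Multiset (ZMod m)) : IsTate s → s.card ≤ 4 → IsAlg s
  | aoki (p : ℕ) (a : ZMod m) : p.Prime → p ≠ 2 → p ∣ m → (p : ZMod m) * a ≠ 0 →
      IsAlg ((univ.filter fun x : ZMod m => (p : ZMod m) * x = (p : ZMod m) * a).val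
        + {-((p : ZMod m) * a)})
  | join (s t : Multiset (ZMod m)) : IsAlg s → IsAlg t → IsAlg (s + t)
  | cut (s : Multiset (ZMod m)) (b : ZMod m) : b ≠ 0 → IsAlg (s + {b, -b}) → IsAlg s

/-- The odd part of a multiset. -/
def oddPart (s : Multiset (ZMod m)) : ZMod m → ℤ := fun a => (s.count a : ℤ) - s.count (-a)

lemma oddPart_add (s t : Multiset (ZMod m)) : oddPart (s + t) = oddPart s + oddPart t := by
  funext a
  simp only [oddPart, Multiset.count_add, Pi.add_apply]
  push_cast
  ring

lemma oddPart_zero : oddPart (0 : Multiset (ZMod m)) = 0 := by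
  funext a
  simp [oddPart]

lemma count_map_neg (s : Multiset (ZMod m)) (a : ZMod m) :
    (s.map fun x => -x).count a = s.count (-a) := by
  have h := Multiset.count_map_eq_count' (fun x : ZMod m => -x) s neg_injective (-a)
  simp only [neg_neg] at h
  exact h

lemma oddPart_neg (s : Multiset (ZMod m)) : oddPart (s.map fun x => -x) = - oddPart s := by
  funext a
  simp only [oddPart, count_map_neg, Pi.neg_apply, neg_neg]
  ring

lemma oddPart_odd (s : Multiset (ZMod m)) : OddF (oddPart s) := by
  intro a
  simp only [oddPart, neg_neg]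
  ring

lemma oddPart_singleton (c x : ZMod m) :
    oddPart ({c} : Multiset (ZMod m)) x = (if x = c then 1 else 0) - (if x = -c then 1 else 0) := by
  simp only [oddPart, Multiset.count_singleton]
  have : (-x = c) ↔ (x = -c) := neg_eq_iff_eq_neg
  rw [if_congr this rfl rfl]
  push_cast
  rfl

lemma oddPart_pair (b : ZMod m) : oddPart ({b, -b} : Multiset (ZMod m)) = 0 := by
  have h : ({b, -b} : Multiset (ZMod m)) = {b} + {-b} := rfl
  rw [h, oddPart_add]
  funext x
  rw [Pi.add_apply, oddPart_singleton, oddPart_singleton, neg_neg]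
  simp

lemma neg_val_sum (b : ZMod m) (hb : b ≠ 0) : (-b).val = m - b.val := by
  haveI : NeZero b := ⟨hb⟩
  exact ZMod.val_neg_of_ne_zero b

lemma sum_oddPart_mul (s : Multiset (ZMod m)) (φ : ZMod m → ℤ) :
    ∑ a, oddPart s a * φ a = (s.map fun a => φ a - φ (-a)).sum := by
  have h1 : ∀ (u : Multiset (ZMod m)) (ψ : ZMod m → ℤ), (u.map ψ).sum = ∑ a, (u.count a : ℤ) * ψ a := by
    intro u ψ
    induction u using Multiset.induction_on with
    | empty => simp
    | cons c u ih =>
      rw [Multiset.map_cons, Multiset.sum_cons, ih]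
      have h2 : ∀ a, ((Multiset.count a (c ::ₘ u) : ℕ) : ℤ) * ψ a
          = (u.count a : ℤ) * ψ a + (if a = c then ψ a else 0) := by
        intro a
        rw [Multiset.count_cons]
        split_ifs <;> push_cast <;> ring
      rw [sum_congr rfl fun a _ => h2 a, sum_add_distrib, Finset.sum_ite_eq' univ c]
      simp
      ring
  have h3 : ∑ a, ((s.count (-a) : ℕ) : ℤ) * φ a = ∑ a, (s.count a : ℤ) * φ (-a) := by
    refine Fintype.sum_equiv (Equiv.neg _) _ _ fun a => ?_
    rw [Equiv.neg_apply, neg_neg]
  simp only [oddPart, sub_mul, sum_sub_distrib]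
  rw [h3, h1]
  simp only [mul_sub, sum_sub_distrib]

/-- The Tate condition in terms of the odd part. -/
lemma tateF_oddPart_iff {s : Multiset (ZMod m)} (h0 : (0 : ZMod m) ∉ s) :
    TateF (oddPart s) ↔
      ∀ t : (ZMod m)ˣ, 2 * (s.map fun a => ((t : ZMod m) * a).val).sum = m * s.card := by
  unfold TateF
  refine forall_congr' fun t => ?_
  rw [sum_oddPart_mul s fun a => (((t : ZMod m) * a).val : ℤ)]
  have h1 : (s.map fun a => (((t : ZMod m) * a).val : ℤ) - (((t : ZMod m) * -a).val : ℤ))
      = s.map fun a => 2 * (((t : ZMod m) * a).val : ℤ) - (m : ℤ) := by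
    apply Multiset.map_congr rfl
    intro a ha
    have ha0 : a ≠ 0 := fun h => h0 (h ▸ ha)
    have hta : (t : ZMod m) * a ≠ 0 := by
      intro h
      apply ha0
      have := congrArg (fun z => ((t⁻¹ : (ZMod m)ˣ) : ZMod m) * z) h
      simpa using this
    rw [mul_neg, neg_val_sum _ hta, Nat.cast_sub (ZMod.val_lt _).le]
    ring
  rw [h1]
  have h2 : ∀ u : Multiset (ZMod m), (u.map fun a => 2 * (((t : ZMod m) * a).val : ℤ) - (m : ℤ)).sum
      = 2 * (((u.map fun a => ((t : ZMod m) * a).val).sum : ℕ) : ℤ) - m * u.card := by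
    intro u
    induction u using Multiset.induction_on with
    | empty => simp
    | cons c u ih =>
      rw [Multiset.map_cons, Multiset.sum_cons, ih, Multiset.map_cons, Multiset.sum_cons,
        Multiset.card_cons]
      push_cast
      ring
  rw [h2]
  constructor
  · intro h
    have h3 : (2 : ℤ) * (((s.map fun a => ((t : ZMod m) * a).val).sum : ℕ) : ℤ)
        = (m : ℤ) * (s.card : ℤ) := by linarith
    exact_mod_cast h3
  · intro h
    have : ((2 * (s.map fun a => ((t : ZMod m) * a).val).sum : ℕ) : ℤ) = ((m * s.card : ℕ) : ℤ) := by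
      rw [h]
    push_cast at this ⊢
    linarith

lemma cast_val_sum (s : Multiset (ZMod m)) :
    (((s.map fun a => a.val).sum : ℕ) : ZMod m) = s.sum := by
  induction s using Multiset.induction_on with
  | empty => simp
  | cons c u ih =>
    rw [Multiset.map_cons, Multiset.sum_cons, Nat.cast_add, ih, Multiset.sum_cons,
      ZMod.natCast_zmod_val]

lemma even_card_iff_sum {s : Multiset (ZMod m)}
    (h : 2 * (s.map fun a => a.val).sum = m * s.card) : s.sum = 0 ↔ Even s.card := by
  have hm : 0 < m := Nat.pos_of_ne_zero (NeZero.ne m)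
  rw [← cast_val_sum s, ZMod.natCast_eq_zero_iff]
  constructor
  · rintro ⟨k, hk⟩
    rw [hk] at h
    have h1 : m * (2 * k) = m * s.card := by rw [← h]; ring
    have h2 := Nat.eq_of_mul_eq_mul_left hm h1
    exact ⟨k, by omega⟩
  · rintro ⟨k, hk⟩
    refine ⟨k, ?_⟩
    rw [hk] at h
    have h1 : 2 * (s.map fun a => a.val).sum = 2 * (m * k) := by rw [h]; ring
    exact Nat.eq_of_mul_eq_mul_left (by norm_num) h1

/-- Description of Tate characters by their odd part. -/
theorem isTate_iff {s : Multiset (ZMod m)} :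
    IsTate s ↔ (0 : ZMod m) ∉ s ∧ Even s.card ∧ TateF (oddPart s) := by
  unfold IsTate
  constructor
  · rintro ⟨h0, h1, h2⟩
    have h3 := h2 1
    simp only [Units.val_one, one_mul] at h3
    exact ⟨h0, (even_card_iff_sum h3).mp h1, (tateF_oddPart_iff h0).mpr h2⟩
  · rintro ⟨h0, h1, h2⟩
    have h2' := (tateF_oddPart_iff h0).mp h2
    have h3 := h2' 1
    simp only [Units.val_one, one_mul] at h3
    exact ⟨h0, (even_card_iff_sum h3).mpr h1, h2'⟩

lemma isTate_zero : IsTate (0 : Multiset (ZMod m)) := by
  refine ⟨by simp, by simp, fun t => by simp⟩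

lemma isTate_pair {b : ZMod m} (hb : b ≠ 0) : IsTate ({b, -b} : Multiset (ZMod m)) := by
  rw [isTate_iff, oddPart_pair]
  refine ⟨?_, ?_, ?_⟩
  · simp only [Multiset.insert_eq_cons, Multiset.mem_cons, Multiset.mem_singleton, not_or]
    exact ⟨fun h => hb h.symm, fun h => hb (neg_eq_zero.mp h.symm)⟩
  · exact ⟨1, rfl⟩
  · intro t
    simp

lemma TateF.neg' {F : ZMod m → ℤ} (hF : TateF F) : TateF (-F) := by
  intro t
  have := hF t
  simp only [Pi.neg_apply, neg_mul, sum_neg_distrib]
  rw [this, neg_zero]

lemma IsTate.neg {s : Multiset (ZMod m)} (h : IsTate s) : IsTate (s.map fun x => -x) := by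
  rw [isTate_iff] at h ⊢
  rw [oddPart_neg, Multiset.card_map]
  refine ⟨?_, h.2.1, TateF.neg' h.2.2⟩
  intro h1
  rw [Multiset.mem_map] at h1
  obtain ⟨x, hx, hx0⟩ := h1
  rw [neg_eq_zero] at hx0
  exact h.1 (hx0 ▸ hx)

lemma IsTate.add {s t : Multiset (ZMod m)} (hs : IsTate s) (ht : IsTate t) : IsTate (s + t) := by
  rw [isTate_iff] at hs ht ⊢
  rw [oddPart_add, Multiset.card_add]
  refine ⟨?_, hs.2.1.add ht.2.1, hs.2.2.add ht.2.2⟩
  rw [Multiset.mem_add, not_or]
  exact ⟨hs.1, ht.1⟩

/-- the fibre of multiplication by `p` through `a` -/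
def fib (p : ℕ) (c : ZMod m) : Multiset (ZMod m) :=
  (univ.filter fun x : ZMod m => (p : ZMod m) * x = c).val

lemma count_fib (p : ℕ) (c x : ZMod m) :
    (fib p c).count x = if (p : ZMod m) * x = c then 1 else 0 := by
  unfold fib
  rw [Multiset.count_eq_of_nodup (Finset.nodup _)]
  simp only [Finset.mem_val, mem_filter, mem_univ, true_and]

lemma mem_fib {p : ℕ} {c x : ZMod m} : x ∈ fib p c ↔ (p : ZMod m) * x = c := by
  unfold fib
  simp only [Finset.mem_val, mem_filter, mem_univ, true_and]

lemma fib_neg (p : ℕ) (c : ZMod m) : (fib p c).map (fun x => -x) = fib p (-c) := by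
  ext x
  rw [count_map_neg, count_fib, count_fib, mul_neg]
  have : (-((p : ZMod m) * x) = c) ↔ ((p : ZMod m) * x = -c) := neg_eq_iff_eq_neg
  rw [if_congr this rfl rfl]

/-- the elementary odd function attached to `c` -/
def od (c : ZMod m) : ZMod m → ℤ := fun x => (if x = c then 1 else 0) - (if x = -c then 1 else 0)

lemma od_odd (c : ZMod m) : OddF (od c) := by
  intro x
  unfold od
  have h1 : (-x = c) ↔ (x = -c) := neg_eq_iff_eq_neg
  have h2 : (-x = -c) ↔ (x = c) := neg_inj
  rw [if_congr h1 rfl rfl, if_congr h2 rfl rfl]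
  ring

lemma oddPart_fib (p : ℕ) (c : ZMod m) : oddPart (fib p c + {-c}) = rel p (od c) := by
  funext x
  rw [oddPart_add, Pi.add_apply, oddPart_singleton, neg_neg]
  simp only [oddPart, count_fib, rel, od, mul_neg]
  have h1 : (-((p : ZMod m) * x) = c) ↔ ((p : ZMod m) * x = -c) := neg_eq_iff_eq_neg
  rw [if_congr h1 rfl rfl]
  push_cast
  ring

lemma card_fib {p : ℕ} (hp : 0 < p) (hpm : p ∣ m) {a : ZMod m} (ha : (p : ZMod m) * a ≠ 0) :
    (fib p ((p : ZMod m) * a)).card = p := by
  have hm : 0 < m := Nat.pos_of_ne_zero (NeZero.ne m)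
  have h1 := Pool.Agent.Lib.MP_938ce2_ag_h99.fiber_val hp hpm a
  have h2 := Pool.Agent.Lib.MP_938ce2_ag_h99.fiber_val hp hpm (-a)
  have h3 : ∑ b ∈ univ.filter (fun b : ZMod m => (p : ZMod m) * b = (p : ZMod m) * -a), (b.val : ℤ)
      = ∑ b ∈ univ.filter (fun b : ZMod m => (p : ZMod m) * b = (p : ZMod m) * a),
        ((m : ℤ) - b.val) := by
    refine sum_bij' (fun b _ => -b) (fun b _ => -b) ?_ ?_ ?_ ?_ ?_
    · intro b hb
      simp only [mem_filter, mem_univ, true_and] at hb ⊢
      rw [mul_neg, hb, mul_neg, neg_neg]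
    · intro b hb
      simp only [mem_filter, mem_univ, true_and] at hb ⊢
      rw [mul_neg, hb, mul_neg]
    · intro b _
      exact neg_neg b
    · intro b _
      exact neg_neg b
    · intro b hb
      simp only [mem_filter, mem_univ, true_and] at hb
      have hb0 : b ≠ 0 := by
        rintro rfl
        rw [mul_zero] at hb
        apply ha
        rw [mul_neg] at hb
        exact neg_eq_zero.mp hb.symm
      rw [neg_val_sum b hb0, Nat.cast_sub (ZMod.val_lt _).le]
      ring
  rw [h3, mul_neg, neg_val_sum _ ha, Nat.cast_sub (ZMod.val_lt _).le, sum_sub_distrib, sum_const,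
    nsmul_eq_mul] at h2
  have h4 : (fib p ((p : ZMod m) * a)).card
      = (univ.filter (fun b : ZMod m => (p : ZMod m) * b = (p : ZMod m) * a)).card := rfl
  have h5 : (2 * m : ℤ) * (fib p ((p : ZMod m) * a)).card = (2 * m : ℤ) * p := by
    rw [h4]
    linarith
  have h6 : (2 * m : ℤ) ≠ 0 := by positivity
  exact_mod_cast mul_left_cancel₀ h6 h5

lemma zero_not_mem_fib {p : ℕ} {a : ZMod m} (ha : (p : ZMod m) * a ≠ 0) :
    (0 : ZMod m) ∉ fib p ((p : ZMod m) * a) := by
  rw [mem_fib, mul_zero]
  exact fun h => ha h.symm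

lemma tateF_rel_od {p : ℕ} (hp : 0 < p) (hpm : p ∣ m) (a : ZMod m) :
    TateF (rel p (od ((p : ZMod m) * a))) := by
  apply Pool.Agent.Lib.MP_938ce2_ag_h99.rel_tate hp hpm (od_odd _)
  intro x hx
  unfold od at hx
  by_cases h1 : x = (p : ZMod m) * a
  · exact ⟨a, h1⟩
  · by_cases h2 : x = -((p : ZMod m) * a)
    · exact ⟨-a, by rw [h2, mul_neg]⟩
    · rw [if_neg h1, if_neg h2] at hx
      exact absurd rfl hx

lemma isTate_aoki {p : ℕ} (hp : p.Prime) (hp2 : p ≠ 2) (hpm : p ∣ m) {a : ZMod m}
    (ha : (p : ZMod m) * a ≠ 0) : IsTate (fib p ((p : ZMod m) * a) + {-((p : ZMod m) * a)}) := by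
  rw [isTate_iff]
  refine ⟨?_, ?_, ?_⟩
  · rw [Multiset.mem_add, not_or]
    refine ⟨zero_not_mem_fib ha, ?_⟩
    rw [Multiset.mem_singleton]
    intro h
    exact ha (neg_eq_zero.mp h.symm)
  · rw [Multiset.card_add, card_fib hp.pos hpm ha, Multiset.card_singleton]
    exact (hp.odd_of_ne_two hp2).add_odd odd_one
  · rw [oddPart_fib]
    exact tateF_rel_od hp.pos hpm a

/-- Every algebraic character is a Tate character. -/
theorem IsAlg.isTate {s : Multiset (ZMod m)} (h : IsAlg s) : IsTate s := by
  induction h with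
  | low s h _ => exact h
  | aoki p a hp hp2 hpm ha => exact isTate_aoki hp hp2 hpm ha
  | join s t _ _ hs ht => exact hs.add ht
  | cut s b hb _ ih =>
    rw [isTate_iff] at ih ⊢
    rw [oddPart_add, oddPart_pair, add_zero, Multiset.card_add] at ih
    refine ⟨fun h => ih.1 (Multiset.mem_add.mpr (Or.inl h)), ?_, ih.2.2⟩
    have h2 : Even ({b, -b} : Multiset (ZMod m)).card := ⟨1, rfl⟩
    exact (Nat.even_add.mp ih.2.1).mpr h2

theorem IsAlg.neg {s : Multiset (ZMod m)} (h : IsAlg s) : IsAlg (s.map fun x => -x) := by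
  induction h with
  | low s h hc => exact IsAlg.low _ h.neg (by rwa [Multiset.card_map])
  | aoki p a hp hp2 hpm ha =>
    have h1 := IsAlg.aoki p (-a) hp hp2 hpm (by rw [mul_neg]; exact neg_ne_zero.mpr ha)
    have h2 : (Multiset.map (fun x => -x)
        ((univ.filter fun x : ZMod m => (p : ZMod m) * x = (p : ZMod m) * a).val
        + {-((p : ZMod m) * a)}))
        = (univ.filter fun x : ZMod m => (p : ZMod m) * x = (p : ZMod m) * -a).val
        + {-((p : ZMod m) * -a)} := by
      rw [Multiset.map_add, Multiset.map_singleton]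
      have h3 := fib_neg p ((p : ZMod m) * a)
      unfold fib at h3
      rw [h3, mul_neg]
    rw [h2]
    exact h1
  | join s t _ _ hs ht => rw [Multiset.map_add]; exact IsAlg.join _ _ hs ht
  | cut s b hb _ ih =>
    rw [Multiset.map_add] at ih
    exact IsAlg.cut _ (-b) (neg_ne_zero.mpr hb) ih

/-- pairs `b, -b` -/
def prs (P : Multiset (ZMod m)) : Multiset (ZMod m) := P + P.map fun x => -x

lemma exists_reduced : ∀ (n : ℕ) (s : Multiset (ZMod m)), s.card = n → (0 : ZMod m) ∉ s →
    ∃ (s' : Multiset (ZMod m)), (0 : ZMod m) ∉ s' ∧ Even (s.card + s'.card) ∧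
      oddPart s' = oddPart s ∧ (∀ b, ¬ (({b, -b} : Multiset (ZMod m)) ≤ s')) ∧
      (IsAlg s ↔ IsAlg s') := by
  intro n
  induction n using Nat.strong_induction_on with
  | _ n ih =>
    intro s hs h0
    by_cases h : ∃ b, ({b, -b} : Multiset (ZMod m)) ≤ s
    · obtain ⟨b, hb⟩ := h
      obtain ⟨u, hu⟩ := Multiset.le_iff_exists_add.mp hb
      have hbs : b ∈ s := Multiset.subset_of_le hb (by simp)
      have hb0 : b ≠ 0 := fun h => h0 (h ▸ hbs)
      have hc : s.card = 2 + u.card := by
        rw [hu, Multiset.card_add]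
        rfl
      have hu0 : (0 : ZMod m) ∉ u := by
        intro h
        apply h0
        rw [hu]
        exact Multiset.mem_add.mpr (Or.inr h)
      obtain ⟨s', h1, h2, h3, h4, h5⟩ := ih u.card (by omega) u rfl hu0
      refine ⟨s', h1, ?_, ?_, h4, ?_⟩
      · rw [hc]
        have : 2 + u.card + s'.card = 2 + (u.card + s'.card) := by ring
        rw [this]
        exact even_two.add h2
      · rw [h3, hu, oddPart_add, oddPart_pair, zero_add]
      · rw [← h5, hu]
        constructor
        · intro h
          rw [add_comm] at h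
          exact IsAlg.cut _ b hb0 h
        · intro h
          exact IsAlg.join _ _ (IsAlg.low _ (isTate_pair hb0) (by
            show (2 : ℕ) ≤ 4
            norm_num)) h
    · push Not at h
      exact ⟨s, h0, ⟨s.card, rfl⟩, rfl, h, Iff.rfl⟩

lemma half_unique {a b : ZMod m} (ha : a = -a) (hb : b = -b) (ha0 : a ≠ 0) (hb0 : b ≠ 0) :
    a = b := by
  apply ZMod.val_injective
  have h1 := neg_val_sum a ha0
  have h2 := neg_val_sum b hb0
  rw [← ha] at h1
  rw [← hb] at h2
  have h3 := ZMod.val_lt a
  have h4 := ZMod.val_lt b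
  omega

lemma count_pair_le {s : Multiset (ZMod m)} {b : ZMod m} (hb : b ≠ -b)
    (h : ¬ (({b, -b} : Multiset (ZMod m)) ≤ s)) : s.count b = 0 ∨ s.count (-b) = 0 := by
  by_contra hcon
  push Not at hcon
  apply h
  rw [Multiset.le_iff_count]
  intro a
  have h1 : (({b, -b} : Multiset (ZMod m))).count a = (if a = b then 1 else 0)
      + (if a = -b then 1 else 0) := by
    have h : ({b, -b} : Multiset (ZMod m)) = {b} + {-b} := rfl
    rw [h, Multiset.count_add, Multiset.count_singleton, Multiset.count_singleton]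
  rw [h1]
  by_cases h2 : a = b
  · subst h2
    rw [if_pos rfl, if_neg hb]
    omega
  · rw [if_neg h2]
    by_cases h3 : a = -b
    · subst h3
      rw [if_pos rfl]
      omega
    · rw [if_neg h3]
      omega

lemma count_half_le {s : Multiset (ZMod m)} {b : ZMod m} (hb : b = -b)
    (h : ¬ (({b, -b} : Multiset (ZMod m)) ≤ s)) : s.count b ≤ 1 := by
  by_contra hcon
  push Not at hcon
  apply h
  rw [← hb, Multiset.le_iff_count]
  intro a
  have h1 : (({b, b} : Multiset (ZMod m))).count a = (if a = b then 1 else 0)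
      + (if a = b then 1 else 0) := by
    have h : ({b, b} : Multiset (ZMod m)) = {b} + {b} := rfl
    rw [h, Multiset.count_add, Multiset.count_singleton]
  rw [h1]
  by_cases h2 : a = b
  · subst h2
    rw [if_pos rfl]
    omega
  · rw [if_neg h2]
    omega

lemma reduced_unique {s t : Multiset (ZMod m)} (hs0 : (0 : ZMod m) ∉ s) (ht0 : (0 : ZMod m) ∉ t)
    (hpar : Even (s.card + t.card)) (hodd : oddPart s = oddPart t)
    (hs : ∀ b, ¬ (({b, -b} : Multiset (ZMod m)) ≤ s))
    (ht : ∀ b, ¬ (({b, -b} : Multiset (ZMod m)) ≤ t)) : s = t := by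
  have key : ∀ a : ZMod m, a ≠ -a → s.count a = t.count a := by
    intro a ha
    have h1 := congrFun hodd a
    simp only [oddPart] at h1
    have h2 := count_pair_le ha (hs a)
    have h3 := count_pair_le ha (ht a)
    omega
  by_contra hne
  have hex : ∃ a, s.count a ≠ t.count a := by
    by_contra hcon
    push Not at hcon
    exact hne (Multiset.ext.mpr hcon)
  obtain ⟨a, ha⟩ := hex
  have haa : a = -a := by
    by_contra h
    exact ha (key a h)
  have hsa := count_half_le haa (hs a)
  have hta := count_half_le haa (ht a)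
  have ha0 : a ≠ 0 := by
    rintro rfl
    apply ha
    rw [Multiset.count_eq_zero_of_notMem hs0, Multiset.count_eq_zero_of_notMem ht0]
  have key2 : ∀ b : ZMod m, b ≠ a → s.count b = t.count b := by
    intro b hb
    by_cases hbb : b = -b
    · by_cases hb0 : b = 0
      · subst hb0
        rw [Multiset.count_eq_zero_of_notMem hs0, Multiset.count_eq_zero_of_notMem ht0]
      · exact absurd (half_unique hbb haa hb0 ha0) hb
    · exact key b hbb
  rcases Nat.lt_or_gt_of_ne ha with h | h
  · have h1 : t = s + {a} := by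
      ext b
      rw [Multiset.count_add, Multiset.count_singleton]
      by_cases hb : b = a
      · subst hb
        rw [if_pos rfl]
        omega
      · rw [if_neg hb, key2 b hb]
        rfl
    rw [h1, Multiset.card_add, Multiset.card_singleton] at hpar
    obtain ⟨k, hk⟩ := hpar
    omega
  · have h1 : s = t + {a} := by
      ext b
      rw [Multiset.count_add, Multiset.count_singleton]
      by_cases hb : b = a
      · subst hb
        rw [if_pos rfl]
        omega
      · rw [if_neg hb, key2 b hb]
        rfl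
    rw [h1, Multiset.card_add, Multiset.card_singleton] at hpar
    obtain ⟨k, hk⟩ := hpar
    omega

/-- Being algebraic depends only on the odd part. -/
theorem isAlg_of_oddPart_eq {s t : Multiset (ZMod m)} (hs0 : (0 : ZMod m) ∉ s)
    (hs : Even s.card) (ht : IsAlg t) (h : oddPart s = oddPart t) : IsAlg s := by
  have htT := isTate_iff.mp ht.isTate
  obtain ⟨s', h1, h2, h3, h4, h5⟩ := exists_reduced s.card s rfl hs0
  obtain ⟨t', g1, g2, g3, g4, g5⟩ := exists_reduced t.card t rfl htT.1
  have hst : s' = t' := by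
    apply reduced_unique h1 g1 ?_ ?_ h4 g4
    · have e1 : Even s'.card := (Nat.even_add.mp h2).mp hs
      have e2 : Even t'.card := (Nat.even_add.mp g2).mp htT.2.1
      exact e1.add e2
    · rw [h3, g3, h]
  rw [h5, hst, ← g5]
  exact ht

/-- the group of odd parts of algebraic characters -/
def algSub (m : ℕ) [NeZero m] : AddSubgroup (ZMod m → ℤ) where
  carrier := {F | ∃ s : Multiset (ZMod m), IsAlg s ∧ F = oddPart s}
  zero_mem' := ⟨0, IsAlg.low 0 isTate_zero (by simp), oddPart_zero.symm⟩
  add_mem' := by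
    rintro _ _ ⟨s, hs, rfl⟩ ⟨t, ht, rfl⟩
    exact ⟨s + t, IsAlg.join _ _ hs ht, (oddPart_add s t).symm⟩
  neg_mem' := by
    rintro _ ⟨s, hs, rfl⟩
    exact ⟨_, hs.neg, (oddPart_neg s).symm⟩

lemma mem_algSub {F : ZMod m → ℤ} : F ∈ algSub m ↔ ∃ s : Multiset (ZMod m), IsAlg s ∧ F = oddPart s :=
  Iff.rfl

/-- A Tate character is algebraic as soon as its odd part is in the group. -/
theorem isAlg_iff_mem {s : Multiset (ZMod m)} (hs : IsTate s) : IsAlg s ↔ oddPart s ∈ algSub m := by
  constructor
  · intro h
    exact ⟨s, h, rfl⟩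
  · rintro ⟨t, ht, h⟩
    have := isTate_iff.mp hs
    exact isAlg_of_oddPart_eq this.1 this.2.1 ht h

lemma fib_two {a h : ZMod m} (hh : h = -h) (hh0 : h ≠ 0) :
    fib 2 ((2 : ℕ) * a : ZMod m) = {a, a + h} := by
  have hne : a ≠ a + h := by
    intro h1
    exact hh0 (left_eq_add.mp h1)
  have h1 : (univ.filter fun x : ZMod m => ((2 : ℕ) : ZMod m) * x = ((2 : ℕ) : ZMod m) * a)
      = {a, a + h} := by
    ext x
    rw [mem_filter, mem_insert, mem_singleton]
    constructor
    · rintro ⟨_, hx⟩
      by_cases hxa : x = a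
      · left; exact hxa
      · right
        have h2 : (x - a) = -(x - a) := by
          push_cast at hx
          linear_combination hx
        have h3 := half_unique h2 hh (sub_ne_zero.mpr hxa) hh0
        rw [← h3]
        ring
    · rintro (rfl | rfl)
      · exact ⟨mem_univ _, rfl⟩
      · refine ⟨mem_univ _, ?_⟩
        push_cast
        have : h + h = 0 := by
          nth_rewrite 2 [hh]
          exact add_neg_cancel h
        linear_combination this
  unfold fib
  rw [h1, Finset.insert_val_of_notMem (by rwa [mem_singleton])]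
  rfl

lemma half_exists (h2 : 2 ∣ m) : ∃ h : ZMod m, h = -h ∧ h ≠ 0 := by
  have hm : 0 < m := Nat.pos_of_ne_zero (NeZero.ne m)
  obtain ⟨k, hk⟩ := h2
  refine ⟨(k : ZMod m), ?_, ?_⟩
  · have : ((2 * k : ℕ) : ZMod m) = 0 := by rw [← hk]; exact ZMod.natCast_self m
    push_cast at this
    linear_combination this
  · rw [Ne, ZMod.natCast_eq_zero_iff]
    intro h
    have := Nat.le_of_dvd (by omega) h
    omega

lemma oddPart_half {h : ZMod m} (hh : h = -h) : oddPart ({h} : Multiset (ZMod m)) = 0 := by
  funext x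
  rw [oddPart_singleton, ← hh]
  simp

/-- every elementary relation is the odd part of an algebraic character -/
lemma rel_od_mem {p : ℕ} (hp : p.Prime) (hpm : p ∣ m) (a : ZMod m) :
    rel p (od ((p : ZMod m) * a)) ∈ algSub m := by
  by_cases ha : (p : ZMod m) * a = 0
  · have h1 : rel p (od ((p : ZMod m) * a)) = 0 := by
      funext x
      rw [ha]
      simp [rel, od]
    rw [h1]
    exact (algSub m).zero_mem
  · by_cases hp2 : p = 2
    · subst hp2
      obtain ⟨h, hh, hh0⟩ := half_exists hpm
      refine ⟨fib 2 (((2 : ℕ) : ZMod m) * a) + {-(((2 : ℕ) : ZMod m) * a)} + {h}, ?_, ?_⟩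
      · apply IsAlg.low
        · rw [isTate_iff]
          refine ⟨?_, ?_, ?_⟩
          · rw [Multiset.mem_add, Multiset.mem_add, not_or, not_or]
            refine ⟨⟨zero_not_mem_fib ha, ?_⟩, ?_⟩
            · rw [Multiset.mem_singleton]
              intro h
              exact ha (neg_eq_zero.mp h.symm)
            · rw [Multiset.mem_singleton]
              exact fun h => hh0 h.symm
          · rw [Multiset.card_add, Multiset.card_add, card_fib (by norm_num) hpm ha,
              Multiset.card_singleton, Multiset.card_singleton]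
            exact ⟨2, rfl⟩
          · rw [oddPart_add, oddPart_half hh, add_zero, oddPart_fib]
            exact tateF_rel_od (by norm_num) hpm a
        · rw [Multiset.card_add, Multiset.card_add, card_fib (by norm_num) hpm ha,
              Multiset.card_singleton, Multiset.card_singleton]
      · rw [oddPart_add, oddPart_half hh, add_zero, oddPart_fib]
    · exact ⟨_, IsAlg.aoki p a hp hp2 hpm ha, (oddPart_fib p _).symm⟩

lemma rel_sum {ι : Type*} (p : ℕ) (S : Finset ι) (g : ι → ZMod m → ℤ) :
    rel p (∑ i ∈ S, g i) = ∑ i ∈ S, rel p (g i) := by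
  funext x
  simp only [rel, Finset.sum_apply, sum_sub_distrib]

lemma rel_smul (p : ℕ) (n : ℤ) (g : ZMod m → ℤ) : rel p (n • g) = n • rel p g := by
  funext x
  simp only [rel, Pi.smul_apply, smul_eq_mul]
  ring

/-- an odd function is a combination of elementary ones -/
lemma odd_eq_sum {g : ZMod m → ℤ} (hg : OddF g) :
    g = ∑ c ∈ univ.filter (fun c : ZMod m => 2 * c.val < m ∧ c ≠ 0), g c • od c := by
  have h0 : g 0 = 0 := by
    have := hg 0
    rw [neg_zero] at this
    omega
  funext x
  rw [Finset.sum_apply]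
  set S := univ.filter (fun c : ZMod m => 2 * c.val < m ∧ c ≠ 0) with hS
  have h1 : ∀ c ∈ S, (g c • od c) x = (if x = c then g x else 0) + (if -x = c then g x else 0) := by
    intro c _
    simp only [Pi.smul_apply, smul_eq_mul, od]
    have h2 : (x = -c) ↔ (-x = c) := neg_eq_iff_eq_neg.symm
    rw [if_congr h2 rfl rfl]
    by_cases h3 : x = c
    · subst h3
      rw [if_pos rfl, if_pos rfl]
      by_cases h4 : -x = x
      · rw [if_pos h4, if_pos h4]
        have := hg x
        rw [h4] at this
        have h5 : g x = 0 := by omega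
        rw [h5]
        ring
      · rw [if_neg h4, if_neg h4]
        ring
    · rw [if_neg h3, if_neg h3]
      by_cases h4 : -x = c
      · rw [if_pos h4, if_pos h4, ← h4, hg x]
        ring
      · rw [if_neg h4, if_neg h4]
        ring
  rw [sum_congr rfl h1, sum_add_distrib, Finset.sum_ite_eq, Finset.sum_ite_eq]
  by_cases hx0 : x = 0
  · subst hx0
    rw [h0]
    simp
  · have hv := neg_val_sum x hx0
    have hlt := ZMod.val_lt x
    have hpos : 0 < x.val := by
      rcases Nat.eq_zero_or_pos x.val with h | h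
      · exact absurd ((ZMod.val_eq_zero x).mp h) hx0
      · exact h
    have hmem : x ∈ S ↔ 2 * x.val < m := by
      rw [hS, mem_filter]
      exact ⟨fun h => h.2.1, fun h => ⟨mem_univ _, h, hx0⟩⟩
    have hmem' : -x ∈ S ↔ m < 2 * x.val := by
      rw [hS, mem_filter]
      constructor
      · intro h
        have := h.2.1
        rw [hv] at this
        omega
      · intro h
        refine ⟨mem_univ _, ?_, neg_ne_zero.mpr hx0⟩
        rw [hv]
        omega
    rcases lt_trichotomy (2 * x.val) m with h | h | h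
    · rw [if_pos (hmem.mpr h), if_neg (by rw [hmem']; omega), add_zero]
    · have hxx : x = -x := by
        apply ZMod.val_injective
        rw [hv]
        omega
      have h5 := hg x
      rw [← hxx] at h5
      have h6 : g x = 0 := by omega
      rw [h6]
      simp
    · rw [if_neg (by rw [hmem]; omega), if_pos (hmem'.mpr h), zero_add]

theorem relSub_le : relSub m ≤ algSub m := by
  unfold relSub
  rw [AddSubgroup.closure_le]
  rintro _ ⟨p, g, hp, hpm, hg, hs, rfl⟩
  show rel p g ∈ algSub m
  rw [odd_eq_sum hg, rel_sum]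
  apply (algSub m).sum_mem
  intro c _
  rw [rel_smul]
  by_cases hc : g c = 0
  · rw [hc, zero_smul]
    exact (algSub m).zero_mem
  · obtain ⟨b, rfl⟩ := hs c hc
    exact (algSub m).zsmul_mem (rel_od_mem hp hpm b) _

/-- (E2) A Tate character is algebraic as soon as its odd part is a combination of relations and
of odd parts of Tate characters of Fermat surfaces. -/
theorem isAlg_of_mem {s : Multiset (ZMod m)} (hs : IsTate s)
    (h : oddPart s ∈ relSub m ⊔ AddSubgroup.closure
      {h | ∃ r : Multiset (ZMod m), IsTate r ∧ r.card = 4 ∧ h = oddPart r}) : IsAlg s := by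
  rw [isAlg_iff_mem hs]
  have h1 : AddSubgroup.closure
      {h | ∃ r : Multiset (ZMod m), IsTate r ∧ r.card = 4 ∧ h = oddPart r} ≤ algSub m := by
    rw [AddSubgroup.closure_le]
    rintro _ ⟨r, hr, hc, rfl⟩
    exact ⟨r, IsAlg.low r hr (by omega), rfl⟩
  exact (sup_le relSub_le h1) h

/-- (E2, general generating set) -/
theorem isAlg_of_mem' {s : Multiset (ZMod m)} (hs : IsTate s)
    (h : oddPart s ∈ relSub m ⊔ AddSubgroup.closure
      {F | ∃ r : Multiset (ZMod m), IsTate r ∧ IsAlg r ∧ F = oddPart r}) : IsAlg s := by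
  rw [isAlg_iff_mem hs]
  have h1 : AddSubgroup.closure
      {F | ∃ r : Multiset (ZMod m), IsTate r ∧ IsAlg r ∧ F = oddPart r} ≤ algSub m := by
    rw [AddSubgroup.closure_le]
    rintro _ ⟨r, _, hr, rfl⟩
    exact ⟨r, hr, rfl⟩
  exact (sup_le relSub_le h1) h

/-- Every odd function satisfying the Tate condition is the odd part of a Tate character. -/
theorem exists_isTate {F : ZMod m → ℤ} (hodd : OddF F) (hT : TateF F) :
    ∃ s : Multiset (ZMod m), IsTate s ∧ F = oddPart s := by
  set s : Multiset (ZMod m) := ∑ a, Multiset.replicate (F a).toNat a with hs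
  have hcount : ∀ x, s.count x = (F x).toNat := by
    intro x
    rw [hs, Multiset.count_sum']
    simp only [Multiset.count_replicate]
    rw [Finset.sum_ite_eq' univ x]
    simp
  have hF : F = oddPart s := by
    funext x
    simp only [oddPart, hcount, hodd x]
    omega
  have h0 : (0 : ZMod m) ∉ s := by
    rw [← Multiset.count_eq_zero, hcount]
    have := hodd 0
    rw [neg_zero] at this
    omega
  have hT' : TateF (oddPart s) := hF ▸ hT
  by_cases hev : Even s.card
  · exact ⟨s, isTate_iff.mpr ⟨h0, hev, hT'⟩, hF⟩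
  · have hodd' : Odd s.card := Nat.not_even_iff_odd.mp hev
    have h2m : 2 ∣ m := by
      have h3 := (tateF_oddPart_iff h0).mp hT' 1
      have h4 : 2 ∣ m * s.card := ⟨_, h3.symm⟩
      rcases (Nat.prime_two.dvd_mul).mp h4 with h5 | h5
      · exact h5
      · exact absurd (even_iff_two_dvd.mpr h5) hev
    obtain ⟨h, hh, hh0⟩ := half_exists h2m
    refine ⟨s + {h}, isTate_iff.mpr ⟨?_, ?_, ?_⟩, ?_⟩
    · rw [Multiset.mem_add, not_or]
      refine ⟨h0, ?_⟩
      rw [Multiset.mem_singleton]
      exact fun h => hh0 h.symm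
    · rw [Multiset.card_add, Multiset.card_singleton]
      exact hodd'.add_odd odd_one
    · rw [oddPart_add, oddPart_half hh, add_zero]
      exact hT'
    · rw [oddPart_add, oddPart_half hh, add_zero]
      exact hF

lemma sum_count (s : Multiset (ZMod m)) : ∑ a, (s.count a : ℤ) = s.card := by
  have h := Multiset.toFinset_sum_count_eq s
  have h2 : ∑ a, s.count a = s.card := by
    rw [← h]
    symm
    apply sum_subset (subset_univ _)
    intro a _ ha
    rw [Multiset.mem_toFinset] at ha
    exact Multiset.count_eq_zero_of_notMem ha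
  exact_mod_cast h2

lemma l1_le (s : Multiset (ZMod m)) : ∑ a, |oddPart s a| ≤ 2 * s.card := by
  calc ∑ a, |oddPart s a| ≤ ∑ a, ((s.count a : ℤ) + s.count (-a)) := by
        apply sum_le_sum
        intro a _
        unfold oddPart
        rw [abs_le]
        constructor <;> omega
    _ = 2 * s.card := by
        rw [sum_add_distrib, sum_count]
        have h3 : ∑ a, ((s.count (-a) : ℕ) : ℤ) = ∑ a, (s.count a : ℤ) := by
          refine Fintype.sum_equiv (Equiv.neg _) _ _ fun a => ?_
          rw [Equiv.neg_apply]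
        rw [h3, sum_count]
        ring

/-- (E1) the weighted norm of the odd part -/
lemma nrm_le (s : Multiset (ZMod m)) : nrm (oddPart s) ≤ 4 * s.card := by
  have h1 : nrm (oddPart s) ≤ ∑ a, 2 * |oddPart s a| := by
    unfold nrm
    apply sum_le_sum
    intro a _
    apply mul_le_mul_of_nonneg_right _ (abs_nonneg _)
    unfold w
    split_ifs <;> norm_num
  rw [← mul_sum] at h1
  have := l1_le s
  linarith

lemma nrm_le_of_odd (hm : Odd m) (s : Multiset (ZMod m)) : nrm (oddPart s) ≤ 2 * s.card := by
  have h1 : nrm (oddPart s) = ∑ a, |oddPart s a| := by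
    unfold nrm
    apply sum_congr rfl
    intro a _
    have h2 : addOrderOf a ∣ m := Pool.Agent.Lib.MP_938ce2_ag_h99.addOrderOf_dvd_m a
    have h3 : Odd (addOrderOf a) := Odd.of_dvd_nat hm h2
    have h4 : w a = 1 := by
      unfold w
      rw [if_neg]
      intro h
      obtain ⟨k, hk⟩ := h3
      omega
    rw [h4, one_mul]
  rw [h1]
  exact l1_le s

/-- (E3) sparse Tate characters are algebraic -/
theorem isAlg_of_sparse {s : Multiset (ZMod m)} (hs : IsTate s)
    (h : ∀ p q, p ≠ q → Eff m p → Eff m q →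
      (if Odd m then 4 * (s.card : ℤ) else 8 * (s.card : ℤ)) < sz p * sz q) : IsAlg s := by
  apply isAlg_of_mem hs
  apply AddSubgroup.mem_sup_left
  apply Pool.Agent.Lib.MP_938ce2_ag_h99.mainB _ (oddPart_odd s) (isTate_iff.mp hs).2.2
  intro p q hpq hp hq
  have h1 := h p q hpq hp hq
  by_cases hm : Odd m
  · rw [if_pos hm] at h1
    have := nrm_le_of_odd hm s
    linarith
  · rw [if_neg hm] at h1
    have := nrm_le s
    linarith

end Pool.Agent.Lib.MP_938ce2_ag_h6
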