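import Pool.Agent.Lib.MP_938ce2_ag_h6.Extract

/-!
Lifting Tate characters from level `f` to level `m` for `f ∣ m`, and the surface classes of small
degree.
-/

set_option autoImplicit false
set_option linter.style.haveILetI false
set_option linter.unusedSectionVars false

open Finset

namespace Pool.Agent.Lib.MP_938ce2_ag_h6

open Pool.Agent.Lib.MP_938ce2_ag_h99 (OddF TateF nrm w Eff sz relSub rel jj jj_val jj_injective
  jj_mul f_ne_zero jj_natCast)

variable {m f : ℕ} [NeZero m] [NeZero f]

/-- Tate characters lift from degree `f` to degree `m`. -/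
theorem IsTate.lift (hf : f ∣ m) {s : Multiset (ZMod f)} (hs : IsTate s) :
    IsTate (s.map (jj hf)) := by
  obtain ⟨h0, h1, h2⟩ := hs
  refine ⟨?_, ?_, ?_⟩
  · intro h
    rw [Multiset.mem_map] at h
    obtain ⟨x, hx, hx0⟩ := h
    have : x = 0 := jj_injective hf (by rw [hx0, map_zero])
    exact h0 (this ▸ hx)
  · rw [Multiset.sum_hom, h1, map_zero]
  · intro t
    have h3 := h2 (ZMod.unitsMap hf t)
    rw [Multiset.map_map, Multiset.card_map]
    have h4 : ∀ u : Multiset (ZMod f),
        (u.map ((fun a => ((t : ZMod m) * a).val) ∘ (jj hf))).sum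
        = m / f * (u.map fun a => (((ZMod.unitsMap hf t : (ZMod f)ˣ) : ZMod f) * a).val).sum := by
      intro u
      induction u using Multiset.induction_on with
      | empty => simp
      | cons c u ih =>
        rw [Multiset.map_cons, Multiset.sum_cons, ih, Multiset.map_cons, Multiset.sum_cons, mul_add]
        congr 1
        simp only [Function.comp_apply]
        rw [jj_mul, jj_val]
        rfl
    rw [h4, mul_left_comm, h3, ← mul_assoc, Nat.div_mul_cancel hf]

lemma oddPart_lift_apply (hf : f ∣ m) (s : Multiset (ZMod f)) (y : ZMod f) :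
    oddPart (s.map (jj hf)) (jj hf y) = oddPart s y := by
  simp only [oddPart]
  rw [← map_neg, Multiset.count_map_eq_count' _ _ (jj_injective hf),
    Multiset.count_map_eq_count' _ _ (jj_injective hf)]

lemma oddPart_lift_of_forall_ne (hf : f ∣ m) (s : Multiset (ZMod f)) {x : ZMod m}
    (hx : ∀ y, jj hf y ≠ x) : oddPart (s.map (jj hf)) x = 0 := by
  simp only [oddPart]
  rw [Multiset.count_eq_zero_of_notMem, Multiset.count_eq_zero_of_notMem]
  · rfl
  · rw [Multiset.mem_map]
    rintro ⟨y, _, hy⟩
    exact hx (-y) (by rw [map_neg, hy, neg_neg])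
  · rw [Multiset.mem_map]
    rintro ⟨y, _, hy⟩
    exact hx y hy

/-- Checking the Tate condition on representatives. -/
lemma isTate_of_nat (L : List ℕ) (h0 : ∀ a ∈ L, a % m ≠ 0) (hev : L.sum % m = 0)
    (h : ∀ t < m, Nat.Coprime t m → 2 * (L.map fun a => t * a % m).sum = m * L.length) :
    IsTate (↑(L.map (Nat.cast : ℕ → ZMod m)) : Multiset (ZMod m)) := by
  refine ⟨?_, ?_, ?_⟩
  · rw [Multiset.mem_coe, List.mem_map]
    rintro ⟨a, ha, ha0⟩
    rw [ZMod.natCast_eq_zero_iff] at ha0
    exact h0 a ha (Nat.mod_eq_zero_of_dvd ha0)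
  · rw [Multiset.sum_coe]
    rw [← Nat.cast_list_sum, ZMod.natCast_eq_zero_iff]
    exact Nat.dvd_of_mod_eq_zero hev
  · intro t
    rw [Multiset.map_coe, Multiset.sum_coe, Multiset.coe_card, List.length_map, List.map_map]
    have h1 := h (t : ZMod m).val (ZMod.val_lt _) (ZMod.val_coe_unit_coprime t)
    have h2 : (L.map ((fun a => ((t : ZMod m) * a).val) ∘ (Nat.cast : ℕ → ZMod m)))
        = L.map fun a => (t : ZMod m).val * a % m := by
      apply List.map_congr_left
      intro a _
      simp only [Function.comp_apply]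
      rw [ZMod.val_mul, ZMod.val_natCast, Nat.mul_mod_mod]
    rw [h2]
    exact h1

/-- A list of four integers, as a multiset at level `m`, where `f ∣ m`. -/
noncomputable def quad (hf : f ∣ m) (L : List ℕ) : Multiset (ZMod m) :=
  (↑(L.map (Nat.cast : ℕ → ZMod f)) : Multiset (ZMod f)).map (jj hf)

lemma card_quad (hf : f ∣ m) (L : List ℕ) : (quad hf L).card = L.length := by
  unfold quad
  rw [Multiset.card_map, Multiset.coe_card, List.length_map]

lemma isTate_quad (hf : f ∣ m) (L : List ℕ) (h0 : ∀ a ∈ L, a % f ≠ 0) (hev : L.sum % f = 0)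
    (h : ∀ t < f, Nat.Coprime t f → 2 * (L.map fun a => t * a % f).sum = f * L.length) :
    IsTate (quad hf L) := (isTate_of_nat L h0 hev h).lift hf

lemma isTate_12 (h : 12 ∣ m) : IsTate (quad h [1, 4, 9, 10]) :=
  isTate_quad h _ (by decide) (by decide) (by decide)

lemma isTate_15 (h : 15 ∣ m) : IsTate (quad h [1, 6, 10, 13]) :=
  isTate_quad h _ (by decide) (by decide) (by decide)

lemma isTate_20 (h : 20 ∣ m) : IsTate (quad h [1, 4, 17, 18]) :=
  isTate_quad h _ (by decide) (by decide) (by decide)

lemma isTate_21 (h : 21 ∣ m) : IsTate (quad h [1, 4, 18, 19]) :=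
  isTate_quad h _ (by decide) (by decide) (by decide)

lemma isTate_28 (h : 28 ∣ m) : IsTate (quad h [1, 9, 21, 25]) :=
  isTate_quad h _ (by decide) (by decide) (by decide)

lemma isTate_66 (h : 66 ∣ m) : IsTate (quad h [1, 25, 44, 62]) :=
  isTate_quad h _ (by decide) (by decide) (by decide)

lemma isTate_78 (h : 78 ∣ m) : IsTate (quad h [1, 32, 61, 62]) :=
  isTate_quad h _ (by decide) (by decide) (by decide)

end Pool.Agent.Lib.MP_938ce2_ag_h6
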