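import Pool.Agent.Lib.MP_938ce2_ag_h6.Lift
import Pool.Agent.Lib.MP_938ce2_ag_h99.MainA

/-!
Reduction of the Tate characters of degree `m` to those of degree `m'`, where `m' ∣ m` has the same
odd prime divisors and `4 ∣ m → 4 ∣ m'`.
-/

set_option autoImplicit false
set_option linter.style.haveILetI false
set_option linter.unusedSectionVars false

open Finset

namespace Pool.Agent.Lib.MP_938ce2_ag_h6

open Pool.Agent.Lib.MP_938ce2_ag_h99 (OddF TateF nrm w Eff sz relSub rel jj jj_val jj_injective
  jj_mul f_ne_zero jj_natCast rad Peeled level_even level_general addOrderOf_dvd_m addOrderOf_jj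
  natCast_mul_jj)

/-- reduced levels -/
def Red (f : ℕ) : Prop := f ∣ 2 * rad f ∧ f % 4 ≠ 2

lemma rad_dvd (f : ℕ) : rad f ∣ f := Nat.prod_primeFactors_dvd f

lemma rad_ne_zero (f : ℕ) : rad f ≠ 0 :=
  Finset.prod_ne_zero_iff.mpr fun _ hp => (Nat.prime_of_mem_primeFactors hp).ne_zero

lemma squarefree_rad (f : ℕ) : Squarefree (rad f) := by
  unfold rad
  refine Finset.squarefree_prod_of_pairwise_isCoprime ?_ ?_
  · intro p hp q hq hpq
    have hp' : p.Prime := Nat.prime_of_mem_primeFactors (mem_coe.mp hp)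
    have hq' : q.Prime := Nat.prime_of_mem_primeFactors (mem_coe.mp hq)
    exact Nat.coprime_iff_isRelPrime.mp ((Nat.coprime_primes hp' hq').mpr hpq)
  · intro p hp
    exact (Nat.prime_of_mem_primeFactors hp).squarefree

/-- divisors of reduced levels -/
lemma dvd_two_rad_of_dvd {f g : ℕ} (hg : g ≠ 0) (hfg : f ∣ g) (h : g ∣ 2 * rad g) :
    f ∣ 2 * rad f := by
  have hf : f ≠ 0 := ne_zero_of_dvd_ne_zero hg hfg
  rw [← Nat.factorization_le_iff_dvd hf (mul_ne_zero two_ne_zero (rad_ne_zero f))]
  intro p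
  by_cases hp : p.Prime
  swap
  · rw [Nat.factorization_eq_zero_of_not_prime _ hp]
    exact Nat.zero_le _
  · by_cases hpf : p ∣ f
    swap
    · rw [Nat.factorization_eq_zero_of_not_dvd hpf]
      exact Nat.zero_le _
    · have h1 : f.factorization p ≤ g.factorization p :=
        (Nat.factorization_le_iff_dvd hf hg).mpr hfg p
      have h2 : g.factorization p ≤ (2 * rad g).factorization p :=
        (Nat.factorization_le_iff_dvd hg (mul_ne_zero two_ne_zero (rad_ne_zero g))).mpr h p
      rw [Nat.factorization_mul two_ne_zero (rad_ne_zero g), Finsupp.add_apply] at h2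
      rw [Nat.factorization_mul two_ne_zero (rad_ne_zero f), Finsupp.add_apply]
      have h3 : (rad g).factorization p ≤ 1 := (squarefree_rad g).natFactorization_le_one p
      have h4 : 1 ≤ (rad f).factorization p := by
        apply (Nat.Prime.dvd_iff_one_le_factorization hp (rad_ne_zero f)).mp
        exact Finset.dvd_prod_of_mem (fun p => p) (Nat.mem_primeFactors.mpr ⟨hp, hpf, hf⟩)
      omega

/-- reduced levels divide `m'` -/
lemma red_dvd {m m' f : ℕ} (hm' : m' ≠ 0) (hp : ∀ p, p.Prime → p ≠ 2 → p ∣ m → p ∣ m')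
    (h4 : 4 ∣ m → 4 ∣ m') (hf : f ∣ m) (hf0 : f ≠ 0) (h : Red f) : f ∣ m' := by
  rw [← Nat.factorization_le_iff_dvd hf0 hm']
  intro p
  by_cases hpp : p.Prime
  swap
  · rw [Nat.factorization_eq_zero_of_not_prime _ hpp]
    exact Nat.zero_le _
  · by_cases hpf : p ∣ f
    swap
    · rw [Nat.factorization_eq_zero_of_not_dvd hpf]
      exact Nat.zero_le _
    · have h2 : f.factorization p ≤ (2 * rad f).factorization p :=
        (Nat.factorization_le_iff_dvd hf0 (mul_ne_zero two_ne_zero (rad_ne_zero f))).mpr h.1 p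
      rw [Nat.factorization_mul two_ne_zero (rad_ne_zero f), Finsupp.add_apply] at h2
      have h3 : (rad f).factorization p ≤ 1 := (squarefree_rad f).natFactorization_le_one p
      by_cases hp2 : p = 2
      · subst hp2
        have h5 : 4 ∣ f := by
          have := h.2
          omega
        have h6 : 4 ∣ m' := h4 (h5.trans hf)
        have h7 : 2 ≤ m'.factorization 2 := by
          rw [← Nat.Prime.pow_dvd_iff_le_factorization Nat.prime_two hm']
          exact h6
        rw [Nat.Prime.factorization_self Nat.prime_two] at h2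
        omega
      · have h5 : (Nat.factorization 2) p = 0 := by
          apply Nat.factorization_eq_zero_of_not_dvd
          intro h6
          exact hp2 ((Nat.prime_dvd_prime_iff_eq hpp Nat.prime_two).mp h6)
        have h6 : 1 ≤ m'.factorization p :=
          (Nat.Prime.dvd_iff_one_le_factorization hpp hm').mp (hp p hpp hp2 (hpf.trans hf))
        omega

variable {m : ℕ} [NeZero m]

/-- (R1) every odd Tate function is, modulo relations, supported on reduced levels -/
theorem exists_reduced_support : ∀ (k : ℕ) (F : ZMod m → ℤ), OddF F → TateF F →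
    (∀ a, F a ≠ 0 → addOrderOf a ≤ k ∨ Red (addOrderOf a)) →
    ∃ F1 : ZMod m → ℤ, F - F1 ∈ relSub m ∧ OddF F1 ∧ TateF F1 ∧
      ∀ a, F1 a ≠ 0 → Red (addOrderOf a) := by
  intro k
  induction k with
  | zero =>
    intro F hodd hT hsup
    refine ⟨F, by rw [sub_self]; exact (relSub m).zero_mem, hodd, hT, ?_⟩
    intro a ha
    rcases hsup a ha with h1 | h1
    · have h2 : 0 < addOrderOf a :=
        Nat.pos_of_dvd_of_pos (addOrderOf_dvd_m a) (Nat.pos_of_ne_zero (NeZero.ne m))
      omega
    · exact h1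
  | succ k ih =>
    intro F hodd hT hsup
    by_cases hf : (k + 1) ∣ m ∧ ¬ Red (k + 1)
    swap
    · apply ih F hodd hT
      intro a ha
      rcases hsup a ha with h1 | h1
      · rcases lt_or_eq_of_le h1 with h2 | h2
        · left; omega
        · right
          by_contra h3
          apply hf
          rw [← h2]
          exact ⟨addOrderOf_dvd_m a, h3⟩
      · right; exact h1
    · obtain ⟨hfm, hR⟩ := hf
      set f := k + 1 with hfdef
      haveI : NeZero f := ⟨Nat.succ_ne_zero k⟩
      have hP : ∃ F', Peeled f F F' := by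
        by_cases hf4 : f % 4 = 2
        · exact level_even hfm hf4 F hodd hT
        · have hfr : ¬ f ∣ 2 * rad f := fun h => hR ⟨h, hf4⟩
          apply level_general hfm hfr F hodd hT
          intro a ha hfa
          have hpos : 0 < addOrderOf a :=
            Nat.pos_of_dvd_of_pos (addOrderOf_dvd_m a) (Nat.pos_of_ne_zero (NeZero.ne m))
          rcases hsup a ha with h1 | h1
          · exact le_antisymm h1 (Nat.le_of_dvd hpos hfa)
          · exact absurd (dvd_two_rad_of_dvd hpos.ne' hfa h1.1) hfr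
      obtain ⟨F', h1, h2, h3, h4, h5⟩ := hP
      obtain ⟨F1, g1, g2, g3, g4⟩ := ih F' h2 h3 (by
        intro a ha
        by_cases hFa : F' a = F a
        · have hFa' : F a ≠ 0 := by rw [← hFa]; exact ha
          rcases hsup a hFa' with h6 | h6
          · rcases lt_or_eq_of_le h6 with h7 | h7
            · left; omega
            · exact absurd (h4 a h7) ha
          · right; exact h6
        · have h6 := h5 a hFa
          have h7 := Nat.le_of_dvd (Nat.pos_of_ne_zero (NeZero.ne f)) h6
          rcases lt_or_eq_of_le h7 with h8 | h8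
          · left; omega
          · exact absurd (h4 a h8) ha)
      refine ⟨F1, ?_, g2, g3, g4⟩
      have := (relSub m).add_mem h1 g1
      rwa [sub_add_sub_cancel] at this

variable {f : ℕ} [NeZero f]

lemma exists_jj_of_order_dvd (hf : f ∣ m) {a : ZMod m} (ha : addOrderOf a ∣ f) :
    ∃ x : ZMod f, jj hf x = a := by
  have hm : 0 < m := Nat.pos_of_ne_zero (NeZero.ne m)
  have hfp : 0 < f := Nat.pos_of_ne_zero (NeZero.ne f)
  have h1 : f • a = 0 := addOrderOf_dvd_iff_nsmul_eq_zero.mp ha
  rw [nsmul_eq_mul, ← ZMod.natCast_zmod_val a, ← Nat.cast_mul, ZMod.natCast_eq_zero_iff] at h1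
  have h2 : m / f ∣ a.val := by
    have h3 : f * (m / f) ∣ f * a.val := by rwa [Nat.mul_div_cancel' hf]
    exact Nat.dvd_of_mul_dvd_mul_left hfp h3
  obtain ⟨k, hk⟩ := h2
  exact ⟨((k : ℕ) : ZMod f), by rw [jj_natCast, ← hk, ZMod.natCast_zmod_val]⟩

/-- fibres are compatible with lifting -/
lemma fib_lift (hf : f ∣ m) {p : ℕ} (hpf : p ∣ f) (a : ZMod f) :
    (fib p ((p : ZMod f) * a)).map (jj hf) = fib p ((p : ZMod m) * jj hf a) := by
  ext x
  by_cases hx : ∃ y, jj hf y = x
  · obtain ⟨y, rfl⟩ := hx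
    rw [Multiset.count_map_eq_count' _ _ (jj_injective hf), count_fib, count_fib]
    have h1 : (p : ZMod m) * jj hf y = jj hf ((p : ZMod f) * y) := natCast_mul_jj hf p y
    have h2 : (p : ZMod m) * jj hf a = jj hf ((p : ZMod f) * a) := natCast_mul_jj hf p a
    rw [h1, h2]
    have h3 : (jj hf ((p : ZMod f) * y) = jj hf ((p : ZMod f) * a))
        ↔ ((p : ZMod f) * y = (p : ZMod f) * a) := (jj_injective hf).eq_iff
    rw [if_congr h3 rfl rfl]
  · rw [Multiset.count_eq_zero_of_notMem, count_fib, if_neg]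
    · intro h
      apply hx
      have h1 : (p : ZMod m) * (x - jj hf a) = 0 := by
        rw [mul_sub, h, sub_self]
      have h2 : addOrderOf (x - jj hf a) ∣ f := by
        apply (addOrderOf_dvd_iff_nsmul_eq_zero.mpr _).trans hpf
        rw [nsmul_eq_mul]
        exact h1
      obtain ⟨y, hy⟩ := exists_jj_of_order_dvd hf h2
      exact ⟨y + a, by rw [map_add, hy, sub_add_cancel]⟩
    · rw [Multiset.mem_map]
      rintro ⟨y, _, hy⟩
      exact hx ⟨y, hy⟩

/-- (R3) algebraic characters lift -/
theorem IsAlg.lift (hf : f ∣ m) {s : Multiset (ZMod f)} (h : IsAlg s) : IsAlg (s.map (jj hf)) := by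
  induction h with
  | low s h hc => exact IsAlg.low _ (h.lift hf) (by rwa [Multiset.card_map])
  | aoki p a hp hp2 hpm ha =>
    have ha' : (p : ZMod m) * jj hf a ≠ 0 := by
      rw [natCast_mul_jj]
      intro h
      exact ha (jj_injective hf (by rw [h, map_zero]))
    have h1 := IsAlg.aoki p (jj hf a) hp hp2 (hpm.trans hf) ha'
    have h2 : Multiset.map (jj hf)
        ((univ.filter fun x : ZMod f => (p : ZMod f) * x = (p : ZMod f) * a).val
        + {-((p : ZMod f) * a)})
        = (univ.filter fun x : ZMod m => (p : ZMod m) * x = (p : ZMod m) * jj hf a).val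
        + {-((p : ZMod m) * jj hf a)} := by
      rw [Multiset.map_add, Multiset.map_singleton, map_neg, ← natCast_mul_jj]
      have h3 := fib_lift hf hpm a
      unfold fib at h3
      rw [h3]
    rw [h2]
    exact h1
  | join s t _ _ hs ht => rw [Multiset.map_add]; exact IsAlg.join _ _ hs ht
  | cut s b hb _ ih =>
    rw [Multiset.map_add] at ih
    refine IsAlg.cut _ (jj hf b) ?_ ?_
    · intro h
      exact hb (jj_injective hf (by rw [h, map_zero]))
    · rw [← map_neg]
      exact ih

/-- the restriction of a Tate function to the `f`-torsion -/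
lemma tateF_comp_jj (hf : f ∣ m) {F : ZMod m → ℤ} (hT : TateF F)
    (hsup : ∀ a, F a ≠ 0 → addOrderOf a ∣ f) : TateF (fun x : ZMod f => F (jj hf x)) := by
  intro t0
  obtain ⟨t, ht⟩ := ZMod.unitsMap_surjective hf t0
  have h1 := hT t
  have h2 : ∑ a, F a * (((t : ZMod m) * a).val : ℤ)
      = ∑ x : ZMod f, F (jj hf x) * (((t : ZMod m) * jj hf x).val : ℤ) := by
    symm
    apply sum_of_injOn (fun x : ZMod f => jj hf x)
    · intro x _ y _ h
      exact jj_injective hf h
    · intro x _
      exact mem_coe.mpr (mem_univ _)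
    · intro a _ ha
      have : F a = 0 := by
        by_contra h
        obtain ⟨x, hx⟩ := exists_jj_of_order_dvd hf (hsup a h)
        exact ha ⟨x, mem_coe.mpr (mem_univ _), hx⟩
      rw [this, zero_mul]
    · intro x _
      rfl
  rw [h2] at h1
  have h3 : ∀ x : ZMod f, F (jj hf x) * (((t : ZMod m) * jj hf x).val : ℤ)
      = ((m / f : ℕ) : ℤ) * (F (jj hf x) * (((t0 : ZMod f) * x).val : ℤ)) := by
    intro x
    have e : ((ZMod.unitsMap hf t : (ZMod f)ˣ) : ZMod f) = ZMod.castHom hf (ZMod f) (t : ZMod m) :=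
      rfl
    rw [jj_mul, jj_val, ← ht, e, Nat.cast_mul]
    ring
  rw [sum_congr rfl fun x _ => h3 x, ← mul_sum] at h1
  have hd : 0 < m / f := Nat.div_pos (Nat.le_of_dvd (Nat.pos_of_ne_zero (NeZero.ne m)) hf)
    (Nat.pos_of_ne_zero (NeZero.ne f))
  have h4 : ((m / f : ℕ) : ℤ) ≠ 0 := by exact_mod_cast hd.ne'
  exact (mul_eq_zero.mp h1).resolve_left h4

/-- an odd Tate function supported on the `f`-torsion comes from a Tate character of degree `f` -/
theorem exists_isTate_of_support (hf : f ∣ m) {F : ZMod m → ℤ} (hodd : OddF F) (hT : TateF F)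
    (hsup : ∀ a, F a ≠ 0 → addOrderOf a ∣ f) :
    ∃ s : Multiset (ZMod f), IsTate s ∧ F = oddPart (s.map (jj hf)) := by
  have hodd' : OddF (fun x : ZMod f => F (jj hf x)) := by
    intro x
    simp only [map_neg]
    exact hodd _
  obtain ⟨s, hs, h⟩ := exists_isTate hodd' (tateF_comp_jj hf hT hsup)
  refine ⟨s, hs, ?_⟩
  funext a
  by_cases ha : ∃ x, jj hf x = a
  · obtain ⟨x, rfl⟩ := ha
    rw [oddPart_lift_apply]
    exact congrFun h x
  · push Not at ha
    rw [oddPart_lift_of_forall_ne hf s ha]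
    by_contra h
    obtain ⟨x, hx⟩ := exists_jj_of_order_dvd hf (hsup a h)
    exact ha x hx

/-- (R2) Every Tate character of degree `m` is, up to algebraic characters, the lift of a Tate
character of degree `m'`. -/
theorem exists_core {m' : ℕ} [NeZero m'] (hm : m' ∣ m)
    (hp : ∀ p, p.Prime → p ≠ 2 → p ∣ m → p ∣ m') (h4 : 4 ∣ m → 4 ∣ m')
    {s : Multiset (ZMod m)} (hs : IsTate s) :
    ∃ s0 : Multiset (ZMod m'), IsTate s0 ∧ IsAlg (s + (s0.map (jj hm)).map fun x => -x) := by
  obtain ⟨F1, h1, h2, h3, h5⟩ := exists_reduced_support m (oddPart s) (oddPart_odd s)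
    (isTate_iff.mp hs).2.2
    (fun a _ => Or.inl (Nat.le_of_dvd (Nat.pos_of_ne_zero (NeZero.ne m)) (addOrderOf_dvd_m a)))
  obtain ⟨s0, hs0, hF⟩ := exists_isTate_of_support hm h2 h3 (fun a ha =>
    red_dvd (NeZero.ne m') hp h4 (addOrderOf_dvd_m a)
      (Nat.pos_of_dvd_of_pos (addOrderOf_dvd_m a) (Nat.pos_of_ne_zero (NeZero.ne m))).ne' (h5 a ha))
  refine ⟨s0, hs0, ?_⟩
  have hT : IsTate (s + (s0.map (jj hm)).map fun x => -x) := hs.add (hs0.lift hm).neg
  rw [isAlg_iff_mem hT, oddPart_add, oddPart_neg, ← hF, ← sub_eq_add_neg]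
  exact relSub_le h1

/-- (R4) The reduction of the degree. -/
theorem isAlg_of_core {m' : ℕ} [NeZero m'] (hm : m' ∣ m)
    (hp : ∀ p, p.Prime → p ≠ 2 → p ∣ m → p ∣ m') (h4 : 4 ∣ m → 4 ∣ m')
    (H : ∀ s0 : Multiset (ZMod m'), IsTate s0 → IsAlg s0)
    {s : Multiset (ZMod m)} (hs : IsTate s) : IsAlg s := by
  obtain ⟨s0, hs0, h⟩ := exists_core hm hp h4 hs
  rw [isAlg_iff_mem hs]
  obtain h1 := (isAlg_iff_mem h.isTate).mp h
  obtain h2 := (isAlg_iff_mem (hs0.lift hm)).mp ((H s0 hs0).lift hm)
  rw [oddPart_add, oddPart_neg] at h1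
  have := (algSub m).add_mem h1 h2
  rwa [neg_add_cancel_right] at this

end Pool.Agent.Lib.MP_938ce2_ag_h6
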